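import Pool.Agent.H34.SL.Det

/-!
# Integrals of the determinants over long boxes
-/

open MeasureTheory Set
open scoped ComplexConjugate

namespace Pool.Agent.H34.SL

open Pool.Agent.H34.DR (km PSDk km_cont)

theorem fub {r : ℕ} {f : (Fin (r + 1) → ℝ) → ℝ} (hf : Continuous f) (a0 b0 : ℝ) (a b : Fin r → ℝ) :
    ∫ u in Icc (Fin.cons a0 a : Fin (r + 1) → ℝ) (Fin.cons b0 b : Fin (r + 1) → ℝ), f u =
      ∫ u in Icc a b, ∫ v in Icc a0 b0, f (Fin.cons v u) := by
  have hmp := volume_preserving_piFinSuccAbove (fun _ : Fin (r + 1) => ℝ) 0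
  set e := MeasurableEquiv.piFinSuccAbove (fun _ : Fin (r + 1) => ℝ) 0 with he
  have hes : ∀ x : ℝ × (Fin r → ℝ), e.symm x = (Fin.cons x.1 x.2 : Fin (r + 1) → ℝ) := by
    intro x
    exact Fin.insertNth_zero' x.1 x.2
  have h1 := hmp.setIntegral_preimage_emb e.measurableEmbedding (fun x => f (e.symm x))
    (Icc a0 b0 ×ˢ Icc a b)
  have h2 : e ⁻¹' (Icc a0 b0 ×ˢ Icc a b) =
      Icc (Fin.cons a0 a : Fin (r + 1) → ℝ) (Fin.cons b0 b : Fin (r + 1) → ℝ) := by
    ext u
    have h3 : e u = (u 0, fun i => u i.succ) := rfl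
    rw [mem_preimage, h3, mem_prod, mem_Icc, mem_Icc, mem_Icc, Pi.le_def, Pi.le_def, Pi.le_def,
      Pi.le_def, Fin.forall_fin_succ, Fin.forall_fin_succ]
    simp only [Fin.cons_zero, Fin.cons_succ]
    tauto
  rw [h2] at h1
  simp only [MeasurableEquiv.symm_apply_apply] at h1
  rw [h1]
  simp_rw [hes]
  rw [Measure.volume_eq_prod, ← Measure.prod_restrict, integral_prod_symm]
  rw [Measure.prod_restrict]
  apply ContinuousOn.integrableOn_compact
  · exact isCompact_Icc.prod isCompact_Icc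
  · apply Continuous.continuousOn
    apply hf.comp
    apply continuous_pi
    intro i
    refine Fin.cases ?_ (fun i => ?_) i
    · simp only [Fin.cons_zero]
      exact continuous_fst
    · simp only [Fin.cons_succ]
      exact (continuous_apply i).comp continuous_snd

variable {K : ℝ → ℝ → ℂ}

/-- the density with `r` coordinates, at the base point `c` -/
noncomputable def Fd (K : ℝ → ℝ → ℂ) (r : ℕ) (c : ℝ) (u : Fin r → ℝ) : ℝ :=
  (km K (Fin.snoc (fun i => c + u i) c : Fin (r + 1) → ℝ)).det.re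

theorem Fd_cont (hc : Continuous fun p : ℝ × ℝ => K p.1 p.2) (r : ℕ) (c : ℝ) :
    Continuous (Fd K r c) := km_cont hc r c

theorem det_cons {n : ℕ} (x : ℝ) (z : Fin n → ℝ) :
    (km K (Fin.cons x z : Fin (n + 1) → ℝ)).det = (km K (Sum.elim (fun _ : Unit => x) z)).det := by
  set e : Unit ⊕ Fin n ≃ Fin (n + 1) :=
    (Equiv.sumComm Unit (Fin n)).trans ((Equiv.optionEquivSumPUnit (Fin n)).symm.trans
      (finSuccEquiv n).symm) with he
  rw [← det_perm e (Fin.cons x z : Fin (n + 1) → ℝ)]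
  congr 2
  ext i
  rcases i with i | i <;> simp [he]

theorem det_snoc {n : ℕ} (x : ℝ) (z : Fin n → ℝ) :
    (km K (Fin.snoc z x : Fin (n + 1) → ℝ)).det = (km K (Sum.elim (fun _ : Unit => x) z)).det := by
  set e : Unit ⊕ Fin n ≃ Fin (n + 1) :=
    (Equiv.sumComm Unit (Fin n)).trans ((Equiv.optionEquivSumPUnit (Fin n)).symm.trans
      finSuccEquivLast.symm) with he
  rw [← det_perm e (Fin.snoc z x : Fin (n + 1) → ℝ)]
  congr 2
  ext i
  rcases i with i | i <;> simp [he]

theorem Fd_upper (hK : PSDk K) (hd : ∀ x, K x x = 1) (r : ℕ) (c : ℝ) (u : Fin (r + 1) → ℝ) :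
    Fd K (r + 1) c u ≤ 1 - ‖K (c + u 0) c‖ ^ 2 / 2 := by
  unfold Fd
  rw [det_snoc]
  exact det_upper hK hd c (fun i => c + u i) 0

/-- the constant -/
noncomputable def Cd (n : ℕ) : ℝ := n.factorial * (n * 2 ^ n)

theorem Cd_nonneg (n : ℕ) : 0 ≤ Cd n := by unfold Cd; positivity

/-- the points -/
noncomputable def pts {r : ℕ} (c : ℝ) (u : Fin r → ℝ) : Fin (r + 1) → ℝ :=
  Fin.snoc (fun i => c + u i) c

theorem Fd_close (hK : PSDk K) (hd : ∀ x, K x x = 1) (r : ℕ) (c v : ℝ) (u : Fin r → ℝ) :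
    |Fd K (r + 1) c (Fin.cons v u) - Fd K r c u| ≤ Cd (r + 1) * ∑ k, ‖K (c + v) (pts c u k)‖ ^ 2 := by
  have h1 : (Fin.snoc (fun i => c + (Fin.cons v u : Fin (r + 1) → ℝ) i) c : Fin (r + 2) → ℝ) =
      Fin.cons (c + v) (pts c u) := by
    have h2 : (fun i => c + (Fin.cons v u : Fin (r + 1) → ℝ) i) = Fin.cons (c + v) (fun i => c + u i) := by
      ext i
      refine Fin.cases ?_ (fun i => ?_) i <;> simp
    rw [h2]
    unfold pts
    exact (Fin.cons_snoc_eq_snoc_cons (c + v) (fun i => c + u i) c).symm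
  unfold Fd
  rw [h1, det_cons]
  have h3 := det_close hK hd (c + v) (pts c u)
  rw [Fintype.card_fin] at h3
  exact h3

/-- the mass of the off diagonal entries -/
noncomputable def AA (K : ℝ → ℝ → ℂ) (c L : ℝ) : ℝ := ∫ v in (-L)..L, ‖K (c + v) c‖ ^ 2

theorem row_cont (hc : Continuous fun p : ℝ × ℝ => K p.1 p.2) (c y : ℝ) :
    Continuous fun v : ℝ => ‖K (c + v) y‖ ^ 2 :=
  ((hc.comp ((continuous_const.add continuous_id).prodMk continuous_const)).norm).pow 2

theorem AA_nonneg (c : ℝ) {L : ℝ} (hL : 0 ≤ L) : 0 ≤ AA K c L :=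
  intervalIntegral.integral_nonneg (by linarith) fun _ _ => by positivity

theorem AA_mono (hc : Continuous fun p : ℝ × ℝ => K p.1 p.2) (c : ℝ) {L L' : ℝ} (hL : 0 ≤ L)
    (h : L ≤ L') : AA K c L ≤ AA K c L' := by
  unfold AA
  apply intervalIntegral.integral_mono_interval (by linarith) (by linarith) h
  · exact Filter.Eventually.of_forall fun v => by positivity
  · exact (row_cont hc c c).intervalIntegrable _ _

theorem AA_shift (hc : Continuous fun p : ℝ × ℝ => K p.1 p.2) {c y L R : ℝ} (hL : 0 ≤ L)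
    (hy : |y - c| ≤ R) : ∫ v in (-L)..L, ‖K (c + v) y‖ ^ 2 ≤ AA K y (L + R) := by
  have h1 : ∀ v, ‖K (c + v) y‖ ^ 2 = ‖K (y + (v + (c - y))) y‖ ^ 2 := by
    intro v
    rw [show y + (v + (c - y)) = c + v by ring]
  simp_rw [h1]
  rw [intervalIntegral.integral_comp_add_right (fun v => ‖K (y + v) y‖ ^ 2) (c - y)]
  unfold AA
  rw [abs_le] at hy
  apply intervalIntegral.integral_mono_interval (by linarith) (by linarith) (by linarith)
  · exact Filter.Eventually.of_forall fun v => by positivity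
  · exact (row_cont hc y y).intervalIntegrable _ _

theorem int_Icc (f : ℝ → ℝ) {L : ℝ} (hL : 0 ≤ L) : ∫ v in Icc (-L) L, f v = ∫ v in (-L)..L, f v := by
  rw [intervalIntegral.integral_of_le (by linarith), integral_Icc_eq_integral_Ioc]

theorem int_upper (hc : Continuous fun p : ℝ × ℝ => K p.1 p.2) (hK : PSDk K) (hd : ∀ x, K x x = 1)
    (r : ℕ) (c : ℝ) {L : ℝ} (hL : 0 ≤ L) :
    ∫ u in Icc (fun _ : Fin (r + 1) => -L) (fun _ => L), Fd K (r + 1) c u ≤
      (2 * L) ^ (r + 1) - (2 * L) ^ r * AA K c L / 2 := by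
  have hg : Continuous fun u : Fin (r + 1) → ℝ => 1 - ‖K (c + u 0) c‖ ^ 2 / 2 :=
    continuous_const.sub (((row_cont hc c c).comp (continuous_apply 0)).div_const 2)
  have h1 : ∫ u in Icc (fun _ : Fin (r + 1) => -L) (fun _ => L), Fd K (r + 1) c u ≤
      ∫ u in Icc (fun _ : Fin (r + 1) => -L) (fun _ => L), (1 - ‖K (c + u 0) c‖ ^ 2 / 2) := by
    apply setIntegral_mono
    · exact (Fd_cont hc (r + 1) c).continuousOn.integrableOn_compact isCompact_Icc
    · exact hg.continuousOn.integrableOn_compact isCompact_Icc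
    · intro u
      exact Fd_upper hK hd r c u
  refine h1.trans (le_of_eq ?_)
  have e1 : (fun _ => -L : Fin (r + 1) → ℝ) = Fin.cons (-L) (fun _ => -L) := by
    ext i
    refine Fin.cases ?_ (fun i => ?_) i <;> simp
  have e2 : (fun _ => L : Fin (r + 1) → ℝ) = Fin.cons L (fun _ => L) := by
    ext i
    refine Fin.cases ?_ (fun i => ?_) i <;> simp
  rw [e1, e2, fub hg]
  simp only [Fin.cons_zero]
  rw [setIntegral_const, int_Icc _ hL, intervalIntegral.integral_sub
    (continuous_const.intervalIntegrable _ _)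
    (((row_cont hc c c).div_const 2).intervalIntegrable _ _), intervalIntegral.integral_div]
  rw [Measure.real, Real.volume_Icc_pi_toReal (fun i => by linarith)]
  simp only [intervalIntegral.integral_const, smul_eq_mul, Finset.prod_const, Finset.card_univ,
    Fintype.card_fin]
  unfold AA
  ring

theorem int_close (hc : Continuous fun p : ℝ × ℝ => K p.1 p.2) (hK : PSDk K) (hd : ∀ x, K x x = 1)
    (r : ℕ) (c : ℝ) {L R B : ℝ} (hL : 0 ≤ L) (hR : 0 ≤ R) {a b : Fin r → ℝ} (hab : ∀ i, a i ≤ b i)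
    (ha : ∀ i, -R ≤ a i) (hb : ∀ i, b i ≤ R) (hB : ∀ y, |y - c| ≤ R → AA K y (L + R) ≤ B) :
    |(∫ u in Icc (Fin.cons (-L) a : Fin (r + 1) → ℝ) (Fin.cons L b : Fin (r + 1) → ℝ),
        Fd K (r + 1) c u) - 2 * L * ∫ u in Icc a b, Fd K r c u| ≤
      (∏ i, (b i - a i)) * (Cd (r + 1) * ((r + 1) * B)) := by
  rw [fub (Fd_cont hc (r + 1) c)]
  have hcont : Continuous fun x : (Fin r → ℝ) × ℝ => Fd K (r + 1) c (Fin.cons x.2 x.1) := by
    apply (Fd_cont hc (r + 1) c).comp
    apply continuous_pi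
    intro i
    refine Fin.cases ?_ (fun i => ?_) i
    · simp only [Fin.cons_zero]
      exact continuous_snd
    · simp only [Fin.cons_succ]
      exact (continuous_apply i).comp continuous_fst
  have inner : ∀ u ∈ Icc a b, ‖(∫ v in Icc (-L) L, Fd K (r + 1) c (Fin.cons v u)) -
      2 * L * Fd K r c u‖ ≤ Cd (r + 1) * ((r + 1) * B) := by
    intro u hu
    have cv : Continuous fun v : ℝ => Fd K (r + 1) c (Fin.cons v u) :=
      hcont.comp (continuous_const.prodMk continuous_id)
    rw [int_Icc _ hL]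
    have e1 : 2 * L * Fd K r c u = ∫ _v in (-L)..L, Fd K r c u := by
      rw [intervalIntegral.integral_const, smul_eq_mul]
      ring
    rw [e1, ← intervalIntegral.integral_sub (cv.intervalIntegrable _ _)
      (continuous_const.intervalIntegrable _ _)]
    have rc : ∀ k, Continuous fun v : ℝ => ‖K (c + v) (pts c u k)‖ ^ 2 := fun k => row_cont hc c _
    have cs : Continuous fun v : ℝ => Cd (r + 1) * ∑ k, ‖K (c + v) (pts c u k)‖ ^ 2 :=
      continuous_const.mul (continuous_finsetSum _ fun k _ => rc k)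
    have h2 : ‖∫ v in (-L)..L, (Fd K (r + 1) c (Fin.cons v u) - Fd K r c u)‖ ≤
        ∫ v in (-L)..L, Cd (r + 1) * ∑ k, ‖K (c + v) (pts c u k)‖ ^ 2 := by
      apply intervalIntegral.norm_integral_le_of_norm_le (by linarith)
      · exact Filter.Eventually.of_forall fun v _ => by
          rw [Real.norm_eq_abs]
          exact Fd_close hK hd r c v u
      · exact cs.intervalIntegrable _ _
    refine h2.trans ?_
    rw [intervalIntegral.integral_const_mul, intervalIntegral.integral_finsetSum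
      (fun k _ => (rc k).intervalIntegrable _ _)]
    apply mul_le_mul_of_nonneg_left _ (Cd_nonneg _)
    have h3 : ∀ k ∈ (Finset.univ : Finset (Fin (r + 1))),
        ∫ v in (-L)..L, ‖K (c + v) (pts c u k)‖ ^ 2 ≤ B := by
      intro k _
      have h4 : |pts c u k - c| ≤ R := by
        unfold pts
        refine Fin.lastCases ?_ (fun i => ?_) k
        · simpa using hR
        · simp only [Fin.snoc_castSucc]
          rw [show c + u i - c = u i by ring, abs_le]
          exact ⟨(ha i).trans (hu.1 i), (hu.2 i).trans (hb i)⟩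
      exact (AA_shift hc hL h4).trans (hB _ h4)
    refine (Finset.sum_le_sum h3).trans ?_
    simp
  have e2 : (∫ u in Icc a b, ∫ v in Icc (-L) L, Fd K (r + 1) c (Fin.cons v u)) -
      2 * L * ∫ u in Icc a b, Fd K r c u =
      ∫ u in Icc a b, ((∫ v in Icc (-L) L, Fd K (r + 1) c (Fin.cons v u)) - 2 * L * Fd K r c u) := by
    rw [integral_sub, integral_const_mul]
    · apply ContinuousOn.integrableOn_compact isCompact_Icc
      apply Continuous.continuousOn
      simp_rw [int_Icc _ hL]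
      exact intervalIntegral.continuous_parametric_intervalIntegral_of_continuous' hcont _ _
    · exact (continuous_const.mul (Fd_cont hc r c)).continuousOn.integrableOn_compact isCompact_Icc
  rw [e2, ← Real.norm_eq_abs]
  have h5 := norm_setIntegral_le_of_norm_le_const (μ := volume) (s := Icc a b)
    (isCompact_Icc.measure_lt_top) inner
  refine h5.trans (le_of_eq ?_)
  rw [Measure.real, Real.volume_Icc_pi_toReal hab]
  ring

end Pool.Agent.H34.SL
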