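import Mathlib

/-!
# Tuples of points in windows
-/

open Finset

namespace Pool.Agent.H34.SL

variable (X : Finset ℕ) (y : ℕ → ℝ)

open Classical in
/-- the tuples of distinct points of `X`, different from `n`, with `y (j i) - y n` in `[a i, b i]` -/
noncomputable def Tp (r n : ℕ) (a b : Fin r → ℝ) : Finset (Fin r → ℕ) :=
  (Fintype.piFinset fun _ : Fin r => X.erase n).filter
    (fun j => Function.Injective j ∧ ∀ i, y (j i) - y n ∈ Set.Icc (a i) (b i))

/-- the window at `n` -/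
noncomputable def Wi (n : ℕ) (s : ℝ) : Finset ℕ := (X.erase n).filter (fun m => |y m - y n| ≤ s)

/-- the number of points in the window -/
noncomputable def Wn (n : ℕ) (s : ℝ) : ℕ := (Wi X y n s).card

variable {X y}

theorem mem_Tp {r n : ℕ} {a b : Fin r → ℝ} {j : Fin r → ℕ} : j ∈ Tp X y r n a b ↔
    (∀ i, j i ≠ n ∧ j i ∈ X) ∧ Function.Injective j ∧ ∀ i, y (j i) - y n ∈ Set.Icc (a i) (b i) := by
  classical
  unfold Tp
  rw [Finset.mem_filter, Fintype.mem_piFinset]
  simp only [Finset.mem_erase]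

theorem mem_Wi {n m : ℕ} {s : ℝ} : m ∈ Wi X y n s ↔ (m ≠ n ∧ m ∈ X) ∧ |y m - y n| ≤ s := by
  unfold Wi
  rw [Finset.mem_filter, Finset.mem_erase]

theorem Wn_mono {n : ℕ} {s t : ℝ} (h : s ≤ t) : Wn X y n s ≤ Wn X y n t := by
  apply Finset.card_le_card
  intro m
  rw [mem_Wi, mem_Wi]
  rintro ⟨h1, h2⟩
  exact ⟨h1, h2.trans h⟩

/-- one more coordinate -/
theorem card_cons {r n : ℕ} {a b : Fin r → ℝ} {L : ℝ} (ha : ∀ i, -L ≤ a i) (hb : ∀ i, b i ≤ L) :
    (Tp X y (r + 1) n (Fin.cons (-L) a : Fin (r + 1) → ℝ) (Fin.cons L b : Fin (r + 1) → ℝ)).card =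
      (Tp X y r n a b).card * (Wn X y n L - r) := by
  classical
  set S : Finset (Σ _ : (Fin r → ℕ), ℕ) :=
    (Tp X y r n a b).sigma (fun j => Wi X y n L \ Finset.image j Finset.univ) with hS
  have h1 : S.card = (Tp X y r n a b).card * (Wn X y n L - r) := by
    rw [hS, Finset.card_sigma]
    rw [Finset.sum_const_nat (m := Wn X y n L - r)]
    intro j hj
    rw [mem_Tp] at hj
    rw [Finset.card_sdiff_of_subset]
    · unfold Wn
      rw [Finset.card_image_of_injective _ hj.2.1, Finset.card_univ, Fintype.card_fin]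
    · intro m hm
      rw [Finset.mem_image] at hm
      obtain ⟨i, _, rfl⟩ := hm
      rw [mem_Wi]
      refine ⟨hj.1 i, ?_⟩
      have h3 := hj.2.2 i
      rw [abs_le]
      exact ⟨(ha i).trans h3.1, h3.2.trans (hb i)⟩
  rw [← h1]
  symm
  apply Finset.card_bij (fun (x : Σ _ : (Fin r → ℕ), ℕ) _ => (Fin.cons x.2 x.1 : Fin (r + 1) → ℕ))
  · rintro ⟨j, m⟩ hx
    rw [hS, Finset.mem_sigma, mem_Tp, Finset.mem_sdiff, mem_Wi] at hx
    obtain ⟨⟨h2, h3, h4⟩, ⟨h5, h6⟩, h7⟩ := hx
    simp only at h2 h3 h4 h5 h6 h7 ⊢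
    rw [mem_Tp]
    refine ⟨?_, ?_, ?_⟩
    · intro i
      refine Fin.cases ?_ (fun i => ?_) i
      · simpa using h5
      · simpa using h2 i
    · rw [Fin.cons_injective_iff]
      refine ⟨?_, h3⟩
      rintro ⟨i, hi⟩
      apply h7
      rw [Finset.mem_image]
      exact ⟨i, Finset.mem_univ _, hi⟩
    · intro i
      refine Fin.cases ?_ (fun i => ?_) i
      · simp only [Fin.cons_zero]
        rw [abs_le] at h6
        exact ⟨h6.1, h6.2⟩
      · simp only [Fin.cons_succ]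
        exact h4 i
  · rintro ⟨j, m⟩ _ ⟨j', m'⟩ _ h
    simp only at h
    rw [Fin.cons_inj] at h
    obtain ⟨rfl, rfl⟩ := h
    rfl
  · intro j hj
    rw [mem_Tp] at hj
    obtain ⟨h2, h3, h4⟩ := hj
    have hc : (Fin.cons (j 0) (Fin.tail j) : Fin (r + 1) → ℕ) = j := Fin.cons_self_tail j
    refine ⟨⟨Fin.tail j, j 0⟩, ?_, hc⟩
    rw [hS, Finset.mem_sigma, mem_Tp, Finset.mem_sdiff, mem_Wi]
    refine ⟨⟨fun i => h2 i.succ, fun i i' hi => ?_, fun i => ?_⟩, ⟨h2 0, ?_⟩, ?_⟩
    · exact Fin.succ_injective _ (h3 hi)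
    · have := h4 i.succ
      simpa [Fin.tail] using this
    · have := h4 0
      simp only [Fin.cons_zero] at this
      rw [abs_le]
      exact ⟨this.1, this.2⟩
    · rw [Finset.mem_image]
      rintro ⟨i, _, hi⟩
      have := h3 hi
      exact absurd this (Fin.succ_ne_zero i)

theorem card_cube {n : ℕ} {L : ℝ} (r : ℕ) :
    (Tp X y r n (fun _ => -L) (fun _ => L)).card = (Wn X y n L).descFactorial r := by
  induction r with
  | zero =>
    rw [Nat.descFactorial_zero, Finset.card_eq_one]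
    refine ⟨Fin.elim0, ?_⟩
    ext j
    rw [mem_Tp, Finset.mem_singleton]
    constructor
    · intro _
      exact Subsingleton.elim _ _
    · rintro rfl
      exact ⟨fun i => i.elim0, fun i => i.elim0, fun i => i.elim0⟩
  | succ r ih =>
    have h1 := card_cons (X := X) (y := y) (r := r) (n := n) (a := fun _ => -L) (b := fun _ => L)
      (L := L) (fun _ => le_rfl) (fun _ => le_rfl)
    have e1 : (Fin.cons (-L) (fun _ => -L) : Fin (r + 1) → ℝ) = fun _ => -L := by
      ext i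
      refine Fin.cases ?_ (fun i => ?_) i <;> simp
    have e2 : (Fin.cons L (fun _ => L) : Fin (r + 1) → ℝ) = fun _ => L := by
      ext i
      refine Fin.cases ?_ (fun i => ?_) i <;> simp
    rw [e1, e2] at h1
    rw [h1, ih, Nat.descFactorial_succ, mul_comm]

theorem card_le {r n : ℕ} {a b : Fin r → ℝ} {R : ℝ} (ha : ∀ i, -R ≤ a i) (hb : ∀ i, b i ≤ R) :
    (Tp X y r n a b).card ≤ (Wn X y n R) ^ r := by
  refine le_trans ?_ (Nat.descFactorial_le_pow _ r)
  rw [← card_cube]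
  apply Finset.card_le_card
  intro j
  rw [mem_Tp, mem_Tp]
  rintro ⟨h1, h2, h3⟩
  exact ⟨h1, h2, fun i => ⟨(ha i).trans (h3 i).1, (h3 i).2.trans (hb i)⟩⟩

/-- Bernoulli -/
theorem bern {x : ℝ} (hx : 0 ≤ x) (p : ℕ) : (p : ℝ) * x ≤ x ^ p + (p - 1) := by
  have := one_add_mul_le_pow (show (-2 : ℝ) ≤ x - 1 by linarith) p
  rw [show 1 + (x - 1) = x by ring] at this
  linarith

/-- strict convexity -/
theorem conv {x : ℝ} (hx : 0 ≤ x) {p : ℕ} (hp : 2 ≤ p) :
    |x - 1| ^ p ≤ x ^ p + (p - 1) - p * x := by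
  rcases le_total 1 x with h | h
  · rw [abs_of_nonneg (by linarith)]
    -- (1 + t)^p ≥ 1 + p t + t^p
    have key : ∀ (t : ℝ), 0 ≤ t → ∀ p : ℕ, 2 ≤ p → 1 + p * t + t ^ p ≤ (1 + t) ^ p := by
      intro t ht p hp
      induction p, hp using Nat.le_induction with
      | base => norm_num; nlinarith
      | succ p hp ih =>
        have h1 : (1 + t) ^ (p + 1) = (1 + t) ^ p * (1 + t) := pow_succ _ _
        have h2 : (1 + p * t + t ^ p) * (1 + t) ≤ (1 + t) ^ p * (1 + t) :=
          mul_le_mul_of_nonneg_right ih (by linarith)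
        rw [h1]
        refine le_trans ?_ h2
        have h3 : 0 ≤ t ^ p := pow_nonneg ht p
        have h4 : t ^ (p + 1) = t ^ p * t := pow_succ _ _
        have h5 : (0 : ℝ) ≤ p := Nat.cast_nonneg p
        rw [h4]
        push_cast
        nlinarith [mul_nonneg h5 (mul_nonneg ht ht)]
    have h1 := key (x - 1) (by linarith) p hp
    rw [show 1 + (x - 1) = x by ring] at h1
    linarith
  · rw [abs_of_nonpos (by linarith)]
    set z := 1 - x with hz
    have hz0 : 0 ≤ z := by rw [hz]; linarith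
    have hz1 : z ≤ 1 := by rw [hz]; linarith
    have key : ∀ p : ℕ, 2 ≤ p → z ^ 2 ≤ (1 - z) ^ p - 1 + p * z := by
      intro p hp
      induction p, hp using Nat.le_induction with
      | base => norm_num; nlinarith
      | succ p hp ih =>
        have h1 : (1 - z) ^ (p + 1) = (1 - z) ^ p * (1 - z) := pow_succ _ _
        have h2 : (z ^ 2 + 1 - p * z) * (1 - z) ≤ (1 - z) ^ p * (1 - z) :=
          mul_le_mul_of_nonneg_right (by linarith) (by linarith)
        rw [h1]
        have h5 : (2 : ℝ) ≤ p := by exact_mod_cast hp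
        push_cast
        nlinarith [mul_nonneg hz0 hz0, mul_nonneg (mul_nonneg hz0 hz0) (sub_nonneg.mpr hz1)]
    have h1 := key p hp
    have h2 : z ^ p ≤ z ^ 2 := pow_le_pow_of_le_one hz0 hz1 hp
    rw [show -(x - 1) = z by rw [hz]; ring, show x = 1 - z by rw [hz]; ring]
    linarith

/-- splitting a product -/
theorem young {w z δ : ℝ} (hw : 0 ≤ w) (hz : 0 ≤ z) (hδ : 0 < δ) (r : ℕ) :
    w ^ r * z ≤ δ * w ^ (r + 1) + (δ⁻¹) ^ r * z ^ (r + 1) := by
  rcases le_total z (δ * w) with h | h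
  · have h1 : w ^ r * z ≤ w ^ r * (δ * w) := mul_le_mul_of_nonneg_left h (pow_nonneg hw r)
    have h2 : 0 ≤ (δ⁻¹) ^ r * z ^ (r + 1) := by positivity
    calc w ^ r * z ≤ w ^ r * (δ * w) := h1
      _ = δ * w ^ (r + 1) := by ring
      _ ≤ _ := by linarith
  · have h1 : w ≤ δ⁻¹ * z := by
      rw [inv_mul_eq_div, le_div_iff₀ hδ]
      linarith
    have h2 : w ^ r ≤ (δ⁻¹ * z) ^ r := pow_le_pow_left₀ hw h1 r
    have h3 : 0 ≤ δ * w ^ (r + 1) := by positivity
    calc w ^ r * z ≤ (δ⁻¹ * z) ^ r * z := mul_le_mul_of_nonneg_right h2 hz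
      _ = (δ⁻¹) ^ r * z ^ (r + 1) := by rw [mul_pow]; ring
      _ ≤ _ := by linarith

end Pool.Agent.H34.SL
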