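import Pool.Agent.H34.DR.Main

/-!
# Determinants of positive semidefinite kernels
-/

open Matrix
open scoped ComplexOrder ComplexConjugate

namespace Pool.Agent.H34.SL

open Pool.Agent.H34.DR (km PSDk)

variable {K : ℝ → ℝ → ℂ}

theorem norm_le_one (hK : PSDk K) (hd : ∀ x, K x x = 1) (x y : ℝ) : ‖K x y‖ ≤ 1 := by
  have h1 := hK (Fin 2) ![x, y]
  have h2 := h1.det_nonneg
  rw [Matrix.det_fin_two] at h2
  have hh : K y x = conj (K x y) := by
    have := congrFun (congrFun h1.isHermitian 1) 0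
    simp only [Matrix.conjTranspose_apply, Matrix.of_apply] at this
    simpa using this.symm
  simp only [Matrix.of_apply] at h2
  simp only [Matrix.cons_val_zero, Matrix.cons_val_one, hd, hh] at h2
  rw [Complex.mul_conj, Complex.normSq_eq_norm_sq, Complex.nonneg_iff] at h2
  have h3 := h2.1
  simp at h3
  norm_cast at h3
  have h4 : ‖K x y‖ ^ 2 ≤ 1 := by linarith
  nlinarith [norm_nonneg (K x y)]

theorem herm (hK : PSDk K) (x y : ℝ) : K y x = conj (K x y) := by
  have h1 := hK (Fin 2) ![x, y]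
  have := congrFun (congrFun h1.isHermitian 1) 0
  simp only [Matrix.conjTranspose_apply, Matrix.of_apply] at this
  simpa using this.symm

theorem det_perm {ι κ : Type*} [Fintype ι] [DecidableEq ι] [Fintype κ] [DecidableEq κ] (e : κ ≃ ι)
    (u : ι → ℝ) : (km K (u ∘ e)).det = (km K u).det := by
  rw [← Matrix.det_submatrix_equiv_self e (km K u)]
  rfl

/-- elimination of a point -/
theorem det_sum {ι : Type*} [Fintype ι] [DecidableEq ι] (hd : ∀ x, K x x = 1) (x : ℝ) (z : ι → ℝ) :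
    (km K (Sum.elim (fun _ : Unit => x) z)).det =
      (Matrix.of fun i j => K (z i) (z j) - K (z i) x * K x (z j)).det := by
  have h1 : km K (Sum.elim (fun _ : Unit => x) z) =
      Matrix.fromBlocks 1 (Matrix.of fun _ j => K x (z j)) (Matrix.of fun i _ => K (z i) x)
        (km K z) := by
    ext i j
    rcases i with i | i <;> rcases j with j | j <;> simp [km, hd]
  rw [h1, Matrix.det_fromBlocks_one₁₁]
  congr 1
  ext i j
  simp [km, Matrix.mul_apply]

theorem schur_psd {ι : Type} [Fintype ι] (hK : PSDk K) (hd : ∀ x, K x x = 1) (x : ℝ) (z : ι → ℝ) :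
    (Matrix.of fun i j => K (z i) (z j) - K (z i) x * K x (z j)).PosSemidef := by
  classical
  have h1 := hK (Unit ⊕ ι) (Sum.elim (fun _ : Unit => x) z)
  have h2 : (Matrix.of fun i j => K (Sum.elim (fun _ : Unit => x) z i)
      (Sum.elim (fun _ : Unit => x) z j)) =
      Matrix.fromBlocks 1 (Matrix.of fun _ j => K x (z j)) (Matrix.of fun _ j => K x (z j))ᴴ
        (km K z) := by
    ext i j
    rcases i with i | i <;> rcases j with j | j <;> simp [km, hd]
    exact herm hK x (z i)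
  rw [h2] at h1
  let _ : Invertible (1 : Matrix Unit Unit ℂ) := invertibleOne
  have h3 := (Matrix.PosDef.fromBlocks₁₁ _ _ (Matrix.PosDef.one (n := Unit) (R := ℂ))).mp h1
  have e : (Matrix.of fun i j => K (z i) (z j) - K (z i) x * K x (z j)) =
      km K z - (Matrix.of fun (_ : Unit) j => K x (z j))ᴴ * (1 : Matrix Unit Unit ℂ)⁻¹ *
        (Matrix.of fun (_ : Unit) j => K x (z j)) := by
    ext i j
    rw [inv_one, Matrix.mul_one, Matrix.sub_apply, Matrix.mul_apply]
    simp only [km, Matrix.of_apply, Matrix.conjTranspose_apply, Finset.univ_unique,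
      Finset.sum_singleton]
    rw [herm hK x (z i)]
    rfl
  rw [e]
  exact h3

/-- the determinant and the trace -/
theorem det_le_exp {ι : Type*} [Fintype ι] [DecidableEq ι] {S : Matrix ι ι ℂ} (hS : S.PosSemidef) :
    S.det.re ≤ Real.exp (S.trace.re - Fintype.card ι) := by
  have e1 : S.det.re = ∏ i, hS.1.eigenvalues i := by
    rw [hS.1.det_eq_prod_eigenvalues]
    have : (∏ i, ((hS.1.eigenvalues i : ℝ) : ℂ)) = ((∏ i, hS.1.eigenvalues i : ℝ) : ℂ) := by
      push_cast
      rfl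
    exact (congrArg Complex.re this).trans (Complex.ofReal_re _)
  have e2 : S.trace.re = ∑ i, hS.1.eigenvalues i := by
    rw [hS.1.trace_eq_sum_eigenvalues]
    have : (∑ i, ((hS.1.eigenvalues i : ℝ) : ℂ)) = ((∑ i, hS.1.eigenvalues i : ℝ) : ℂ) := by
      push_cast
      rfl
    exact (congrArg Complex.re this).trans (Complex.ofReal_re _)
  rw [e1, e2]
  have h1 : ∏ i, hS.1.eigenvalues i ≤ ∏ i, Real.exp (hS.1.eigenvalues i - 1) := by
    apply Finset.prod_le_prod
    · intro i _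
      exact hS.eigenvalues_nonneg i
    · intro i _
      have := Real.add_one_le_exp (hS.1.eigenvalues i - 1)
      linarith
  refine h1.trans (le_of_eq ?_)
  rw [← Real.exp_sum, Finset.sum_sub_distrib]
  simp

theorem exp_half {t : ℝ} (h0 : 0 ≤ t) (h1 : t ≤ 1) : Real.exp (-t) ≤ 1 - t / 2 := by
  have h2 : 1 + t ≤ Real.exp t := by
    have := Real.add_one_le_exp t
    linarith
  rw [Real.exp_neg]
  rw [inv_le_comm₀ (Real.exp_pos t) (by linarith)]
  refine le_trans ?_ h2
  rw [inv_le_iff_one_le_mul₀ (by linarith)]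
  nlinarith

/-- the determinant is small if an off diagonal entry is large -/
theorem det_upper {ι : Type} [Fintype ι] [DecidableEq ι] (hK : PSDk K) (hd : ∀ x, K x x = 1) (x : ℝ)
    (z : ι → ℝ) (i₀ : ι) :
    (km K (Sum.elim (fun _ : Unit => x) z)).det.re ≤ 1 - ‖K (z i₀) x‖ ^ 2 / 2 := by
  rw [det_sum hd]
  refine (det_le_exp (schur_psd hK hd x z)).trans ?_
  have e : ∀ i, (K (z i) (z i) - K (z i) x * K x (z i)).re = 1 - ‖K (z i) x‖ ^ 2 := by
    intro i
    rw [hd, herm hK (z i) x, Complex.mul_conj, Complex.normSq_eq_norm_sq]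
    simp
    norm_cast
  have h1 : (Matrix.of fun i j => K (z i) (z j) - K (z i) x * K x (z j)).trace.re =
      Fintype.card ι - ∑ i, ‖K (z i) x‖ ^ 2 := by
    unfold Matrix.trace
    rw [Complex.re_sum]
    simp only [Matrix.diag_apply, Matrix.of_apply]
    rw [Finset.sum_congr rfl fun i _ => e i, Finset.sum_sub_distrib]
    simp
  rw [h1]
  have h2 : ‖K (z i₀) x‖ ^ 2 ≤ ∑ i, ‖K (z i) x‖ ^ 2 :=
    Finset.single_le_sum (f := fun i => ‖K (z i) x‖ ^ 2) (fun i _ => by positivity)
      (Finset.mem_univ i₀)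
  have h3 : ‖K (z i₀) x‖ ^ 2 ≤ 1 := by
    have := norm_le_one hK hd (z i₀) x
    nlinarith [norm_nonneg (K (z i₀) x)]
  refine le_trans (Real.exp_le_exp.mpr ?_) (exp_half (by positivity) h3)
  linarith

theorem prod_close {ι : Type*} (s : Finset ι) (a e : ι → ℂ) {σ : ℝ} (hσ : 0 ≤ σ)
    (ha : ∀ i ∈ s, ‖a i‖ ≤ 1) (he : ∀ i ∈ s, ‖e i‖ ≤ 1) (he2 : ∀ i ∈ s, ‖e i‖ ≤ σ) :
    ‖∏ i ∈ s, (a i - e i) - ∏ i ∈ s, a i‖ ≤ s.card * 2 ^ s.card * σ := by
  classical
  induction s using Finset.induction_on with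
  | empty => simp
  | insert i s hi ih =>
    rw [Finset.prod_insert hi, Finset.prod_insert hi, Finset.card_insert_of_notMem hi]
    have h1 := ih (fun j hj => ha j (Finset.mem_insert_of_mem hj))
      (fun j hj => he j (Finset.mem_insert_of_mem hj)) (fun j hj => he2 j (Finset.mem_insert_of_mem hj))
    have h2 : (a i - e i) * ∏ j ∈ s, (a j - e j) - a i * ∏ j ∈ s, a j =
        a i * (∏ j ∈ s, (a j - e j) - ∏ j ∈ s, a j) - e i * ∏ j ∈ s, (a j - e j) := by ring
    rw [h2]
    have h3 : ‖∏ j ∈ s, (a j - e j)‖ ≤ 2 ^ s.card := by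
      rw [norm_prod]
      calc ∏ j ∈ s, ‖a j - e j‖ ≤ ∏ _j ∈ s, (2 : ℝ) := by
            apply Finset.prod_le_prod (fun j _ => norm_nonneg _)
            intro j hj
            have := norm_sub_le (a j) (e j)
            have := ha j (Finset.mem_insert_of_mem hj)
            have := he j (Finset.mem_insert_of_mem hj)
            linarith
        _ = 2 ^ s.card := by rw [Finset.prod_const]
    refine (norm_sub_le _ _).trans ?_
    rw [norm_mul, norm_mul]
    have h4 := ha i (Finset.mem_insert_self i s)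
    have h5 := he2 i (Finset.mem_insert_self i s)
    have h6 : ‖a i‖ * ‖∏ j ∈ s, (a j - e j) - ∏ j ∈ s, a j‖ ≤ 1 * (s.card * 2 ^ s.card * σ) :=
      mul_le_mul h4 h1 (norm_nonneg _) zero_le_one
    have h7 : ‖e i‖ * ‖∏ j ∈ s, (a j - e j)‖ ≤ σ * 2 ^ s.card :=
      mul_le_mul h5 h3 (norm_nonneg _) hσ
    refine (add_le_add h6 h7).trans ?_
    push_cast
    rw [pow_succ]
    have h8 : (0 : ℝ) ≤ 2 ^ s.card * σ := by positivity
    have h9 : (0 : ℝ) ≤ s.card := Nat.cast_nonneg _
    nlinarith [mul_nonneg h9 h8]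

theorem det_close_gen {ι : Type*} [Fintype ι] [DecidableEq ι] (A E : Matrix ι ι ℂ) {σ : ℝ} (hσ : 0 ≤ σ)
    (hA : ∀ i j, ‖A i j‖ ≤ 1) (hE : ∀ i j, ‖E i j‖ ≤ 1) (hE2 : ∀ i j, ‖E i j‖ ≤ σ) :
    ‖(A - E).det - A.det‖ ≤ (Fintype.card ι).factorial * (Fintype.card ι * 2 ^ Fintype.card ι) * σ := by
  rw [Matrix.det_apply, Matrix.det_apply, ← Finset.sum_sub_distrib]
  refine (norm_sum_le _ _).trans ?_
  have h1 : ∀ π ∈ (Finset.univ : Finset (Equiv.Perm ι)),
      ‖Equiv.Perm.sign π • ∏ i, (A - E) (π i) i - Equiv.Perm.sign π • ∏ i, A (π i) i‖ ≤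
        Fintype.card ι * 2 ^ Fintype.card ι * σ := by
    intro π _
    rw [← smul_sub]
    have h2 := prod_close (Finset.univ : Finset ι) (fun i => A (π i) i) (fun i => E (π i) i) hσ
      (fun i _ => hA _ _) (fun i _ => hE _ _) (fun i _ => hE2 _ _)
    rw [Finset.card_univ] at h2
    refine le_trans (le_of_eq ?_) h2
    rcases Int.units_eq_one_or (Equiv.Perm.sign π) with h | h
    · rw [h]
      simp [Matrix.sub_apply]
    · rw [h]
      simp only [Units.neg_smul, one_smul, norm_neg, Matrix.sub_apply]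
  refine (Finset.sum_le_sum h1).trans ?_
  rw [Finset.sum_const, Finset.card_univ, Fintype.card_perm, nsmul_eq_mul]
  apply le_of_eq
  ring

/-- removing a far point changes the determinant little -/
theorem det_close {ι : Type*} [Fintype ι] [DecidableEq ι] (hK : PSDk K) (hd : ∀ x, K x x = 1) (x : ℝ)
    (z : ι → ℝ) :
    |(km K (Sum.elim (fun _ : Unit => x) z)).det.re - (km K z).det.re| ≤
      (Fintype.card ι).factorial * (Fintype.card ι * 2 ^ Fintype.card ι) * ∑ k, ‖K x (z k)‖ ^ 2 := by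
  rw [det_sum hd, ← Complex.sub_re]
  refine (Complex.abs_re_le_norm _).trans ?_
  have hn := norm_le_one hK hd
  have e1 : ∀ i, ‖K (z i) x‖ = ‖K x (z i)‖ := by
    intro i
    rw [herm hK x (z i), RCLike.norm_conj]
  have h1 : ∀ i, ‖K x (z i)‖ ^ 2 ≤ ∑ k, ‖K x (z k)‖ ^ 2 := fun i =>
    Finset.single_le_sum (f := fun i => ‖K x (z i)‖ ^ 2) (fun i _ => by positivity)
      (Finset.mem_univ i)
  have := det_close_gen (km K z) (Matrix.of fun i j => K (z i) x * K x (z j))
    (σ := ∑ k, ‖K x (z k)‖ ^ 2) (Finset.sum_nonneg fun i _ => by positivity)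
    (fun i j => hn _ _) (fun i j => by
      rw [Matrix.of_apply, norm_mul]
      exact mul_le_one₀ (hn _ _) (norm_nonneg _) (hn _ _)) (fun i j => by
      rw [Matrix.of_apply, norm_mul, e1]
      nlinarith [h1 i, h1 j, sq_nonneg (‖K x (z i)‖ - ‖K x (z j)‖)])
  exact this

end Pool.Agent.H34.SL
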