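import Pool.Agent.H34.SL.Tent

/-!
# Inequalities for finite sets of points
-/

open Finset

namespace Pool.Agent.H34.SL

variable (X : Finset ℕ) (y : ℕ → ℝ)

/-- the factorial moments of the windows -/
noncomputable def DF (p : ℕ) (s : ℝ) : ℝ := ∑ n ∈ X, ((Wn X y n s).descFactorial p : ℝ)

/-- the number of pairs -/
noncomputable def SW (s : ℝ) : ℝ := ∑ n ∈ X, (Wn X y n s : ℝ)

/-- the normalised number of points in the window -/
noncomputable def xw (p : ℕ) (s : ℝ) (n : ℕ) : ℝ := ((Wn X y n s - p : ℕ) : ℝ) / (2 * s)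

/-- the number of tuples -/
noncomputable def NT (r : ℕ) (a b : Fin r → ℝ) : ℕ := ∑ n ∈ X, (Tp X y r n a b).card

variable {X y}

theorem xw_nonneg {p : ℕ} {s : ℝ} (hs : 0 < s) (n : ℕ) : 0 ≤ xw X y p s n := by
  unfold xw
  positivity

theorem xw_pow {p : ℕ} {s : ℝ} (hs : 0 < s) (n : ℕ) :
    xw X y p s n ^ p ≤ ((Wn X y n s).descFactorial p : ℝ) / (2 * s) ^ p := by
  unfold xw
  rw [div_pow]
  apply div_le_div_of_nonneg_right _ (by positivity)
  have h1 := Nat.pow_sub_le_descFactorial (Wn X y n s) p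
  have h2 : (Wn X y n s - p) ^ p ≤ (Wn X y n s + 1 - p) ^ p := Nat.pow_le_pow_left (by omega) p
  exact_mod_cast h2.trans h1

theorem xw_lower {p : ℕ} {s : ℝ} (hs : 0 < s) (n : ℕ) :
    ((Wn X y n s : ℝ) - p) / (2 * s) ≤ xw X y p s n := by
  unfold xw
  apply div_le_div_of_nonneg_right _ (by positivity)
  have h : Wn X y n s ≤ (Wn X y n s - p) + p := by omega
  have h2 : (Wn X y n s : ℝ) ≤ ((Wn X y n s - p : ℕ) : ℝ) + p := by exact_mod_cast h
  linarith

/-- the mean of the windows is bounded in terms of the factorial moments -/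
theorem SW_le {p : ℕ} (hp : 1 ≤ p) {s : ℝ} (hs : 0 < s) :
    SW X y s ≤ p * X.card + 2 * s / p * (DF X y p s / (2 * s) ^ p + (p - 1) * X.card) := by
  have hp0 : (0 : ℝ) < p := by exact_mod_cast hp
  have h1 : ∀ n ∈ X, (Wn X y n s : ℝ) ≤ p +
      2 * s / p * (((Wn X y n s).descFactorial p : ℝ) / (2 * s) ^ p + (p - 1)) := by
    intro n _
    have h2 := xw_lower (X := X) (y := y) (p := p) hs n
    rw [div_le_iff₀ (by positivity)] at h2
    have h3 := bern (xw_nonneg (X := X) (y := y) (p := p) hs n) p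
    have h4 := xw_pow (X := X) (y := y) (p := p) hs n
    have h5 : xw X y p s n ≤ (((Wn X y n s).descFactorial p : ℝ) / (2 * s) ^ p + (p - 1)) / p := by
      rw [le_div_iff₀ hp0]
      linarith
    have h6 : xw X y p s n * (2 * s) ≤
        (((Wn X y n s).descFactorial p : ℝ) / (2 * s) ^ p + (p - 1)) / p * (2 * s) :=
      mul_le_mul_of_nonneg_right h5 (by positivity)
    have h7 : (((Wn X y n s).descFactorial p : ℝ) / (2 * s) ^ p + (p - 1)) / p * (2 * s) =
        2 * s / p * (((Wn X y n s).descFactorial p : ℝ) / (2 * s) ^ p + (p - 1)) := by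
      field_simp
    linarith
  unfold SW DF
  refine (Finset.sum_le_sum h1).trans (le_of_eq ?_)
  rw [Finset.sum_add_distrib, ← Finset.mul_sum, Finset.sum_add_distrib, ← Finset.sum_div]
  simp only [Finset.sum_const, nsmul_eq_mul]
  ring

/-- the deviation of the windows -/
theorem dev_le {p : ℕ} (hp : 2 ≤ p) {s : ℝ} (hs : 0 < s) :
    ∑ n ∈ X, |xw X y p s n - 1| ^ p ≤
      DF X y p s / (2 * s) ^ p + (p - 1) * X.card - p * ((SW X y s - p * X.card) / (2 * s)) := by
  have hp0 : (0 : ℝ) < p := by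
    have : 0 < p := by omega
    exact_mod_cast this
  have h1 : ∀ n ∈ X, |xw X y p s n - 1| ^ p ≤
      ((Wn X y n s).descFactorial p : ℝ) / (2 * s) ^ p + (p - 1) -
        p * (((Wn X y n s : ℝ) - p) / (2 * s)) := by
    intro n _
    have h2 := conv (xw_nonneg (X := X) (y := y) (p := p) hs n) hp
    have h4 := xw_pow (X := X) (y := y) (p := p) hs n
    have h5 := mul_le_mul_of_nonneg_left (xw_lower (X := X) (y := y) (p := p) hs n) hp0.le
    linarith
  unfold SW DF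
  refine (Finset.sum_le_sum h1).trans (le_of_eq ?_)
  have e : ∑ n ∈ X, ((Wn X y n s : ℝ) - p) = (∑ n ∈ X, (Wn X y n s : ℝ)) - p * X.card := by
    rw [Finset.sum_sub_distrib]
    simp [mul_comm]
  rw [Finset.sum_sub_distrib, Finset.sum_add_distrib, ← Finset.sum_div, ← Finset.mul_sum,
    ← Finset.sum_div, e]
  simp only [Finset.sum_const, nsmul_eq_mul]
  ring

/-- the powers of the windows -/
theorem pow_sum_le (p : ℕ) (s : ℝ) :
    ∑ n ∈ X, (Wn X y n s : ℝ) ^ p ≤ 2 ^ (p - 1) * (DF X y p s + p ^ p * X.card) := by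
  have h1 : ∀ n ∈ X, (Wn X y n s : ℝ) ^ p ≤
      2 ^ (p - 1) * (((Wn X y n s).descFactorial p : ℝ) + p ^ p) := by
    intro n _
    have h : Wn X y n s ≤ (Wn X y n s - p) + p := by omega
    have h2 : (Wn X y n s : ℝ) ≤ ((Wn X y n s - p : ℕ) : ℝ) + p := by exact_mod_cast h
    have h3 : (Wn X y n s : ℝ) ^ p ≤ (((Wn X y n s - p : ℕ) : ℝ) + p) ^ p :=
      pow_le_pow_left₀ (Nat.cast_nonneg _) h2 p
    have h4 := add_pow_le (Nat.cast_nonneg (Wn X y n s - p) : (0 : ℝ) ≤ _)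
      (Nat.cast_nonneg p : (0 : ℝ) ≤ _) p
    have h5 : ((Wn X y n s - p : ℕ) : ℝ) ^ p ≤ ((Wn X y n s).descFactorial p : ℝ) := by
      have h1 := Nat.pow_sub_le_descFactorial (Wn X y n s) p
      have h2 : (Wn X y n s - p) ^ p ≤ (Wn X y n s + 1 - p) ^ p := Nat.pow_le_pow_left (by omega) p
      exact_mod_cast h2.trans h1
    refine h3.trans (h4.trans ?_)
    apply mul_le_mul_of_nonneg_left _ (by positivity)
    linarith
  refine (Finset.sum_le_sum h1).trans (le_of_eq ?_)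
  unfold DF
  rw [← Finset.mul_sum, Finset.sum_add_distrib]
  simp only [Finset.sum_const, nsmul_eq_mul]
  ring

/-- comparison of the levels -/
theorem level_le {r : ℕ} (hr : 1 ≤ r) {a b : Fin r → ℝ} {L R δ : ℝ} (hL : 0 < L) (hRL : R ≤ L)
    (ha : ∀ i, -R ≤ a i) (hb : ∀ i, b i ≤ R) (hδ : 0 < δ) :
    |(NT X y (r + 1) (Fin.cons (-L) a : Fin (r + 1) → ℝ) (Fin.cons L b : Fin (r + 1) → ℝ) : ℝ) /
      (2 * L) - NT X y r a b| ≤
      (δ + 1 / (2 * L)) * ∑ n ∈ X, (Wn X y n R : ℝ) ^ (r + 1) +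
        (δ⁻¹) ^ r * ∑ n ∈ X, |xw X y (r + 1) L n - 1| ^ (r + 1) := by
  have h1 : (NT X y (r + 1) (Fin.cons (-L) a : Fin (r + 1) → ℝ)
      (Fin.cons L b : Fin (r + 1) → ℝ) : ℝ) / (2 * L) - NT X y r a b =
      ∑ n ∈ X, ((Tp X y r n a b).card : ℝ) * (((Wn X y n L - r : ℕ) : ℝ) / (2 * L) - 1) := by
    unfold NT
    push_cast
    rw [Finset.sum_div, ← Finset.sum_sub_distrib]
    apply Finset.sum_congr rfl
    intro n _
    rw [card_cons (fun i => by linarith [ha i]) (fun i => by linarith [hb i])]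
    push_cast
    ring
  rw [h1]
  refine (Finset.abs_sum_le_sum_abs _ _).trans ?_
  rw [Finset.mul_sum, Finset.mul_sum, ← Finset.sum_add_distrib]
  apply Finset.sum_le_sum
  intro n _
  rw [abs_mul, abs_of_nonneg (Nat.cast_nonneg _)]
  set w : ℝ := (Wn X y n R : ℝ) with hw
  have hw0 : 0 ≤ w := Nat.cast_nonneg _
  have h2 : ((Tp X y r n a b).card : ℝ) ≤ w ^ r := by
    have := card_le (X := X) (y := y) (n := n) ha hb
    rw [hw]
    exact_mod_cast this
  have h3 : |((Wn X y n L - r : ℕ) : ℝ) / (2 * L) - 1| ≤ |xw X y (r + 1) L n - 1| + 1 / (2 * L) := by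
    have h4 : ((Wn X y n L - r : ℕ) : ℝ) / (2 * L) - 1 = (xw X y (r + 1) L n - 1) +
        (((Wn X y n L - r : ℕ) : ℝ) - ((Wn X y n L - (r + 1) : ℕ) : ℝ)) / (2 * L) := by
      unfold xw
      ring
    rw [h4]
    refine (abs_add_le _ _).trans ?_
    apply add_le_add le_rfl
    rw [abs_div, abs_of_pos (show (0 : ℝ) < 2 * L by positivity)]
    apply div_le_div_of_nonneg_right _ (by positivity)
    rw [abs_le]
    have a1 : Wn X y n L - r ≤ (Wn X y n L - (r + 1)) + 1 := by omega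
    have a2 : Wn X y n L - (r + 1) ≤ Wn X y n L - r := by omega
    have a3 : ((Wn X y n L - r : ℕ) : ℝ) ≤ ((Wn X y n L - (r + 1) : ℕ) : ℝ) + 1 := by exact_mod_cast a1
    have a4 : ((Wn X y n L - (r + 1) : ℕ) : ℝ) ≤ ((Wn X y n L - r : ℕ) : ℝ) := by exact_mod_cast a2
    constructor <;> linarith
  have h5 : ((Tp X y r n a b).card : ℝ) * |((Wn X y n L - r : ℕ) : ℝ) / (2 * L) - 1| ≤
      w ^ r * (|xw X y (r + 1) L n - 1| + 1 / (2 * L)) :=
    mul_le_mul h2 h3 (abs_nonneg _) (pow_nonneg hw0 r)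
  have h6 := young hw0 (abs_nonneg (xw X y (r + 1) L n - 1)) hδ r
  have h7 : w ^ r ≤ w ^ (r + 1) := by
    rcases Nat.eq_zero_or_pos (Wn X y n R) with h | h
    · rw [hw, h]
      simp
      rw [zero_pow (by omega)]
    · have : (1 : ℝ) ≤ w := by rw [hw]; exact_mod_cast h
      exact pow_le_pow_right₀ this (by omega)
  have h8 : w ^ r * (1 / (2 * L)) ≤ w ^ (r + 1) * (1 / (2 * L)) :=
    mul_le_mul_of_nonneg_right h7 (by positivity)
  refine h5.trans ?_
  rw [mul_add]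
  have h9 : (δ + 1 / (2 * L)) * w ^ (r + 1) = δ * w ^ (r + 1) + w ^ (r + 1) * (1 / (2 * L)) := by ring
  rw [h9]
  linarith

end Pool.Agent.H34.SL
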