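import Pool.Agent.H34.SL.Step

/-!
# The zeros: one determinantal level
-/

open Filter Topology MeasureTheory Set
open scoped ComplexOrder ComplexConjugate

namespace Pool.Agent.H34.SL

open SG (ord NZ)
open Pool.Agent.H34.DR (km PSDk MM MM_pos MM_tendsto L_pos FT mem_FT FT_card AP mem_Icc_NZ
  PairDensity pair_level PDr eq_of_integrals integral_fin_one det_two s)

/-- the system of the zeros up to `T` -/
noncomputable def zS {l : Filter ℝ} (hl : l ≤ atTop) : Sy l where
  X := FT
  y := fun T n => ord n * DR.L T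
  M := MM
  Mtop := MM_tendsto.mono_left hl
  card := by
    have h1 := H19.HL.NZ_tendsto.mono_left hl
    refine h1.congr fun T => ?_
    rw [FT_card]
    rfl
  range := by
    filter_upwards [hl (eventually_ge_atTop 10)] with T hT n hn
    have h1 := mem_FT.mp hn
    have h2 := L_pos (show 1 < T by linarith)
    have h3 : 0 ≤ ord n := (SG.ord_pos h1.1).le
    refine ⟨mul_nonneg h3 h2.le, ?_⟩
    have h4 : MM T = T * DR.L T := by
      unfold MM DR.L
      ring
    rw [h4]
    exact mul_le_mul_of_nonneg_right h1.2 h2.le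

/-- the counting function of the problem -/
theorem count (r : ℕ) (T : ℝ) (a b : Fin r → ℝ) :
    {j : Fin (r + 1) → ℕ | Function.Injective j ∧ (∀ i, 1 ≤ j i ∧ ord (j i) ≤ T) ∧
      ∀ i : Fin r, (ord (j i.castSucc) - ord (j (Fin.last r))) * (Real.log T / (2 * Real.pi)) ∈
        Set.Icc (a i) (b i)}.ncard = NT (FT T) (fun n => ord n * DR.L T) r a b := by
  classical
  set X := FT T
  set y : ℕ → ℝ := fun n => ord n * DR.L T with hy
  set F : Finset (Σ _ : ℕ, (Fin r → ℕ)) := X.sigma (fun n => Tp X y r n a b) with hF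
  have h1 : NT X y r a b = F.card := by
    rw [hF, Finset.card_sigma]
    rfl
  set g : (Σ _ : ℕ, (Fin r → ℕ)) → (Fin (r + 1) → ℕ) := fun x => Fin.snoc x.2 x.1 with hg
  have hinj : Function.Injective g := by
    rintro ⟨n, j⟩ ⟨n', j'⟩ h
    simp only [hg] at h
    have h2 := (Fin.snoc_injective2 h).2
    have h3 := (Fin.snoc_injective2 h).1
    subst h2 h3
    rfl
  rw [h1, ← Finset.card_image_of_injective F hinj, ← Set.ncard_coe_finset]
  congr 1
  ext j
  simp only [Set.mem_ofPred_eq, Finset.coe_image, Set.mem_image, Finset.mem_coe]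
  have key : ∀ (n m : ℕ), (ord m - ord n) * (Real.log T / (2 * Real.pi)) = y m - y n := by
    intro n m
    rw [hy]
    simp only
    unfold DR.L
    ring
  constructor
  · rintro ⟨h2, h3, h4⟩
    refine ⟨⟨j (Fin.last r), fun i => j i.castSucc⟩, ?_, ?_⟩
    · rw [hF, Finset.mem_sigma, mem_Tp]
      refine ⟨mem_FT.mpr (h3 _), fun i => ⟨?_, mem_FT.mpr (h3 _)⟩, ?_, fun i => ?_⟩
      · intro h
        exact absurd (h2 h) (Fin.castSucc_lt_last i).ne
      · intro i i' h
        exact Fin.castSucc_injective r (h2 h)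
      · have := h4 i
        rw [key] at this
        exact this
    · simp only [hg]
      ext i
      refine Fin.lastCases ?_ (fun i => ?_) i
      · simp
      · simp
  · rintro ⟨⟨n, k⟩, h2, rfl⟩
    rw [hF, Finset.mem_sigma, mem_Tp] at h2
    simp only at h2
    obtain ⟨h3, h4, h5, h6⟩ := h2
    simp only [hg]
    refine ⟨?_, ?_, ?_⟩
    · rw [Fin.snoc_injective_iff]
      refine ⟨h5, ?_⟩
      rintro ⟨i, hi⟩
      exact (h4 i).1 hi
    · intro i
      refine Fin.lastCases ?_ (fun i => ?_) i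
      · rw [Fin.snoc_last]
        exact mem_FT.mp h3
      · rw [Fin.snoc_castSucc]
        exact mem_FT.mp (h4 i).2
    · intro i
      rw [Fin.snoc_castSucc, Fin.snoc_last, key]
      exact h6 i

/-- the pairs, in terms of the tuples -/
theorem NT_one (T : ℝ) (a b : Fin 1 → ℝ) :
    NT (FT T) (fun n => ord n * DR.L T) 1 a b = (AP T T (a 0) (b 0)).card := by
  rw [← count, ← Set.ncard_coe_finset]
  set f : (Fin 2 → ℕ) → ℕ × ℕ := fun j => (j 0, j 1) with hf
  have hinj : Function.Injective f := by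
    intro j j' h
    simp only [hf, Prod.mk.injEq] at h
    ext i
    fin_cases i
    · exact h.1
    · exact h.2
  rw [← Set.ncard_image_of_injective _ hinj]
  congr 1
  ext z
  simp only [Set.mem_image, Set.mem_ofPred_eq, Finset.mem_coe]
  unfold AP
  rw [Finset.mem_filter, Finset.mem_offDiag, mem_Icc_NZ, mem_Icc_NZ]
  constructor
  · rintro ⟨j, ⟨h1, h2, h3⟩, rfl⟩
    have h4 := h3 0
    exact ⟨⟨h2 0, h2 1, fun h => absurd (h1 h) (by decide)⟩, h4⟩
  · rintro ⟨⟨h1, h2, h3⟩, h4⟩
    refine ⟨![z.1, z.2], ⟨?_, ?_, ?_⟩, rfl⟩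
    · intro i j hij
      fin_cases i <;> fin_cases j
      · rfl
      · exact absurd hij h3
      · exact absurd hij.symm h3
      · rfl
    · intro i
      fin_cases i
      · exact h1
      · exact h2
    · intro i
      fin_cases i
      exact h4

variable {K : ℝ → ℝ → ℂ}

/-- the modulus of the kernel, from the pair level -/
theorem norm_eq (hRH : RiemannHypothesis) {l : Filter ℝ} [l.NeBot] (hl : l ≤ atTop)
    (hc : Continuous fun p : ℝ × ℝ => K p.1 p.2) (hK : PSDk K) (hd : ∀ x, K x x = 1)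
    (H : (zS hl).Lev K 1) (x y : ℝ) : ‖K x y‖ = |s (x - y)| := by
  have hh := herm hK
  -- the pair densities
  have hcont : ∀ c : ℝ, Continuous fun u : ℝ => ‖K (c + u) c‖ ^ 2 := fun c => row_cont hc c c
  have pd : ∀ c : ℝ, PairDensity l (fun u => 1 - ‖K (c + u) c‖ ^ 2) := by
    intro c a b hab
    have h1 := H c (fun _ => a) (fun _ => b) (fun _ => hab)
    have h2 : ∀ T, NT ((zS hl).X T) ((zS hl).y T) 1 (fun _ => a) (fun _ => b) =
        (AP T T a b).card := fun T => NT_one T (fun _ => a) (fun _ => b)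
    simp_rw [h2] at h1
    unfold Fd at h1
    simp_rw [det_two hh hd] at h1
    rw [integral_fin_one (fun u => 1 - ‖K (c + u) c‖ ^ 2) (fun _ => a) (fun _ => b) hab] at h1
    exact h1
  set g : ℝ → ℝ := fun u => ‖K (0 + u) 0‖ ^ 2 with hg
  have hgc : Continuous g := hcont 0
  have same : ∀ c u : ℝ, ‖K (c + u) c‖ ^ 2 = g u := by
    intro c u
    have h1 := eq_of_integrals (f := fun u => 1 - ‖K (c + u) c‖ ^ 2) (g := fun u => 1 - g u)
      (continuous_const.sub (hcont c)) (continuous_const.sub hgc) (fun a b hab =>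
        tendsto_nhds_unique (pd c a b hab) (pd 0 a b hab)) u
    linarith
  have hKg : ∀ x y : ℝ, ‖K x y‖ ^ 2 = g (x - y) := by
    intro x y
    have h1 := same y (x - y)
    rwa [show y + (x - y) = x by ring] at h1
  have he : ∀ u, g (-u) = g u := by
    intro u
    have h1 := hKg 0 u
    have h2 := hKg u 0
    rw [zero_sub] at h1
    rw [sub_zero] at h2
    rw [← h1, ← h2, hh u 0, RCLike.norm_conj]
  have hP : PDr g := by
    intro ι _ p w
    classical
    have hM := hK ι p
    have hM2 := hM.hadamard hM.transpose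
    have h1 := hM2.dotProduct_mulVec_nonneg (fun i : ι => (w i : ℂ))
    have h2 : star (fun i : ι => (w i : ℂ)) ⬝ᵥ (Matrix.hadamard (Matrix.of fun i j => K (p i) (p j))
        (Matrix.of fun i j => K (p i) (p j)).transpose).mulVec (fun i : ι => (w i : ℂ)) =
        ((∑ i, ∑ j, w i * w j * g (p i - p j) : ℝ) : ℂ) := by
      simp only [dotProduct, Matrix.mulVec, Matrix.hadamard_apply, Matrix.transpose_apply,
        Matrix.of_apply, Pi.star_apply]
      push_cast
      apply Finset.sum_congr rfl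
      intro i _
      rw [Finset.mul_sum]
      apply Finset.sum_congr rfl
      intro j _
      rw [← hKg (p i) (p j), hh (p i) (p j), Complex.mul_conj, Complex.normSq_eq_norm_sq]
      have h3 : star ((w i : ℝ) : ℂ) = ((w i : ℝ) : ℂ) := Complex.conj_ofReal _
      rw [h3]
      push_cast
      ring
    rw [h2] at h1
    exact_mod_cast h1
  have h1 := pair_level hRH hl hgc he hP (pd 0) (x - y)
  rw [← hKg x y] at h1
  have h2 : ‖K x y‖ = √(s (x - y) ^ 2) := by
    rw [show s (x - y) ^ 2 = ‖K x y‖ ^ 2 from h1.symm, Real.sqrt_sq (norm_nonneg _)]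
  rw [h2, Real.sqrt_sq_eq_abs]

/-- **one determinantal level forces the sine kernel** -/
theorem dets (hRH : RiemannHypothesis) {l : Filter ℝ} [l.NeBot] (hl : l ≤ atTop)
    (hc : Continuous fun p : ℝ × ℝ => K p.1 p.2) (hK : PSDk K) (hd : ∀ x, K x x = 1) {r : ℕ}
    (hr : 1 ≤ r) (H : (zS hl).Lev K r) {n : ℕ} (u : Fin n → ℝ) : (km K u).det =
      ((Matrix.of fun i j => s (u i - u j) : Matrix (Fin n) (Fin n) ℝ).det : ℂ) :=
  DR.dets hc hK hd (norm_eq hRH hl hc hK hd (Sy.down_all hc hK hd le_rfl hr H))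
    (fun x y => (herm hK x y).symm) u

end Pool.Agent.H34.SL
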