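import Pool.Agent.H34.SL.Fin
import Pool.Agent.H34.SL.Box

/-!
# A determinantal level determines the lower levels
-/

open Filter Topology MeasureTheory Set

namespace Pool.Agent.H34.SL

open Pool.Agent.H34.DR (km PSDk)

/-- finite sets of points of density one in long intervals -/
structure Sy {ι : Type*} (l : Filter ι) where
  /-- the indices -/
  X : ι → Finset ℕ
  /-- the points -/
  y : ι → ℕ → ℝ
  /-- the length of the interval -/
  M : ι → ℝ
  Mtop : Tendsto M l atTop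
  card : Tendsto (fun i => ((X i).card : ℝ) / M i) l (𝓝 1)
  range : ∀ᶠ i in l, ∀ n ∈ X i, 0 ≤ y i n ∧ y i n ≤ M i

namespace Sy

variable {ι : Type*} {l : Filter ι} (S : Sy l) {K : ℝ → ℝ → ℂ}

/-- the level with `r` coordinates is determinantal with the kernel `K` -/
def Lev (K : ℝ → ℝ → ℂ) (r : ℕ) : Prop :=
  ∀ (c : ℝ) (a b : Fin r → ℝ), (∀ i, a i < b i) →
    Tendsto (fun i => (NT (S.X i) (S.y i) r a b : ℝ) / S.M i) l (𝓝 (∫ u in Icc a b, Fd K r c u))

theorem Mpos : ∀ᶠ i in l, 0 < S.M i := S.Mtop.eventually_gt_atTop 0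

theorem df_eq (i : ι) (p : ℕ) (s : ℝ) :
    DF (S.X i) (S.y i) p s = NT (S.X i) (S.y i) p (fun _ => -s) (fun _ => s) := by
  unfold DF NT
  push_cast
  apply Finset.sum_congr rfl
  intro n _
  rw [card_cube]

variable {S}

theorem df_lim {p : ℕ} (H : S.Lev K p) (c : ℝ) {s : ℝ} (hs : 0 < s) :
    Tendsto (fun i => DF (S.X i) (S.y i) p s / S.M i) l
      (𝓝 (∫ u in Icc (fun _ : Fin p => -s) (fun _ => s), Fd K p c u)) := by
  simp_rw [S.df_eq]
  exact H c _ _ (fun _ => by linarith)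

theorem int_le (hc : Continuous fun p : ℝ × ℝ => K p.1 p.2) (hK : PSDk K) (hd : ∀ x, K x x = 1)
    (r : ℕ) (c : ℝ) {s : ℝ} (hs : 0 < s) :
    ∫ u in Icc (fun _ : Fin (r + 1) => -s) (fun _ => s), Fd K (r + 1) c u ≤ (2 * s) ^ (r + 1) := by
  have h1 := int_upper hc hK hd r c hs.le
  have h2 := AA_nonneg (K := K) c hs.le
  have h3 : 0 ≤ (2 * s) ^ r * AA K c s / 2 := by positivity
  linarith

/-- upper bound for the mean of the windows -/
theorem sw_le (hc : Continuous fun p : ℝ × ℝ => K p.1 p.2) (hK : PSDk K) (hd : ∀ x, K x x = 1)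
    {r : ℕ} (H : S.Lev K (r + 1)) {s : ℝ} (hs : 0 < s) {ε : ℝ} (hε : 0 < ε) :
    ∀ᶠ i in l, SW (S.X i) (S.y i) s ≤ (2 * s + (r + 1 : ℕ) + ε) * S.M i := by
  set p := r + 1 with hp
  have hp0 : (0 : ℝ) < (p : ℕ) := by
    rw [hp]
    positivity
  have h1 := df_lim H 0 hs
  have h2 := int_le hc hK hd r 0 hs
  set J := ∫ u in Icc (fun _ : Fin p => -s) (fun _ => s), Fd K p 0 u with hJ
  have h3 : Tendsto (fun i => (p : ℝ) * (((S.X i).card : ℝ) / S.M i) + 2 * s / p *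
      (DF (S.X i) (S.y i) p s / S.M i / (2 * s) ^ p + (p - 1) * (((S.X i).card : ℝ) / S.M i))) l
      (𝓝 ((p : ℝ) * 1 + 2 * s / p * (J / (2 * s) ^ p + (p - 1) * 1))) :=
    (S.card.const_mul _).add (((h1.div_const _).add (S.card.const_mul _)).const_mul _)
  have h4 : (p : ℝ) * 1 + 2 * s / p * (J / (2 * s) ^ p + (p - 1) * 1) < 2 * s + p + ε := by
    have h5 : J / (2 * s) ^ p ≤ 1 := by
      rw [div_le_one (by positivity)]
      exact h2
    have h6 : 2 * s / p * (J / (2 * s) ^ p + (p - 1) * 1) ≤ 2 * s / p * p :=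
      mul_le_mul_of_nonneg_left (by linarith) (by positivity)
    rw [div_mul_cancel₀ _ hp0.ne'] at h6
    linarith
  filter_upwards [(tendsto_order.mp h3).2 _ h4, S.Mpos] with i h5 h6
  have h7 := SW_le (X := S.X i) (y := S.y i) (p := p) (by omega) hs
  refine h7.trans ?_
  have h8 := mul_le_mul_of_nonneg_right h5.le h6.le
  refine le_trans (le_of_eq ?_) h8
  field_simp

/-- the scales -/
noncomputable def Lq (q : ℕ) : ℝ := ((q ^ 2 : ℕ) : ℝ) + q

theorem Lq_pos {q : ℕ} (hq : 1 ≤ q) : 0 < Lq q := by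
  unfold Lq
  have : (0 : ℝ) < q := by exact_mod_cast hq
  positivity

theorem Lq_ge {q : ℕ} : (q : ℝ) ^ 2 ≤ Lq q := by
  unfold Lq
  push_cast
  have : (0 : ℝ) ≤ q := Nat.cast_nonneg q
  linarith

/-- lower bound for the mean of the windows -/
theorem sw_ge (hc : Continuous fun p : ℝ × ℝ => K p.1 p.2) (hK : PSDk K) (hd : ∀ x, K x x = 1)
    {r : ℕ} (H : S.Lev K (r + 1)) {q : ℕ} (hq : 1 ≤ q) :
    ∀ᶠ i in l, (2 * Lq q - ((r + 1 : ℕ) + 5) * q) * S.M i ≤ SW (S.X i) (S.y i) (Lq q) := by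
  set p := r + 1 with hp
  set m := q ^ 2 with hm
  have hq0 : (1 : ℝ) ≤ q := by exact_mod_cast hq
  have hmq : (m : ℝ) = (q : ℝ) ^ 2 := by rw [hm]; push_cast; ring
  have hL : Lq q = (q : ℝ) ^ 2 + q := by unfold Lq; push_cast; ring
  have a1 : ∀ᶠ i in l, ∀ j ∈ Finset.range m, SW (S.X i) (S.y i) ((j : ℝ) + 1) ≤
      (2 * ((j : ℝ) + 1) + p + 1 / 2) * S.M i := by
    rw [Filter.eventually_all_finset]
    intro j _
    exact sw_le hc hK hd H (by positivity) (by norm_num)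
  have t1 : Tendsto (fun i => Lq q / S.M i) l (𝓝 0) := tendsto_const_nhds.div_atTop S.Mtop
  have h3 : Tendsto (fun i => Lq q ^ 2 * (2 * (((S.X i).card : ℝ) / S.M i) - 1 - Lq q / S.M i) -
      q * (((S.X i).card : ℝ) / S.M i) - (m * (m + 1) + (p + 1 / 2) * m) -
      m * (((S.X i).card : ℝ) / S.M i)) l
      (𝓝 (Lq q ^ 2 * (2 * 1 - 1 - 0) - q * 1 - (m * (m + 1) + (p + 1 / 2) * m) - m * 1)) :=
    (((((S.card.const_mul _).sub_const _).sub t1).const_mul _).sub (S.card.const_mul _)).sub_const _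
      |>.sub (S.card.const_mul _)
  have h4 : (q : ℝ) * (2 * Lq q - (p + 5) * q) <
      Lq q ^ 2 * (2 * 1 - 1 - 0) - q * 1 - (m * (m + 1) + (p + 1 / 2) * m) - m * 1 := by
    rw [hmq, hL]
    nlinarith
  filter_upwards [a1, (tendsto_order.mp h3).1 _ h4, S.Mpos, S.range] with i h5 h6 h7 h8
  have h9 := compare (X := S.X i) (y := S.y i) h7.le h8 (m := m) (h := q) (by positivity)
  have e1 : ∀ s : ℝ, ∑ n ∈ S.X i, ((Wn (S.X i) (S.y i) n s : ℝ) + 1) =
      SW (S.X i) (S.y i) s + (S.X i).card := by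
    intro s
    unfold SW
    rw [Finset.sum_add_distrib]
    simp
  simp_rw [e1] at h9
  have e2 : ∑ j ∈ Finset.range m, (SW (S.X i) (S.y i) ((j : ℝ) + 1) + (S.X i).card) ≤
      (m * (m + 1) + (p + 1 / 2) * m) * S.M i + m * (S.X i).card := by
    have h10 : ∑ j ∈ Finset.range m, (SW (S.X i) (S.y i) ((j : ℝ) + 1) + (S.X i).card) ≤
        ∑ j ∈ Finset.range m, ((2 * ((j : ℝ) + 1) + p + 1 / 2) * S.M i + (S.X i).card) :=
      Finset.sum_le_sum fun j hj => by linarith [h5 j hj]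
    refine h10.trans (le_of_eq ?_)
    have h11 : ∀ m : ℕ, ∑ j ∈ Finset.range m, ((2 * ((j : ℝ) + 1) + p + 1 / 2) * S.M i +
        (S.X i).card) = (m * (m + 1) + (p + 1 / 2) * m) * S.M i + m * (S.X i).card := by
      intro m
      induction m with
      | zero => simp
      | succ m ih =>
        rw [Finset.sum_range_succ, ih]
        push_cast
        ring
    exact h11 m
  have e3 : (m : ℝ) + q = Lq q := by rw [hmq, hL]
  rw [e3] at h9
  have h12 : (q : ℝ) * (2 * Lq q - (p + 5) * q) * S.M i ≤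
      (Lq q ^ 2 * (2 * (((S.X i).card : ℝ) / S.M i) - 1 - Lq q / S.M i) -
      q * (((S.X i).card : ℝ) / S.M i) - (m * (m + 1) + (p + 1 / 2) * m) -
      m * (((S.X i).card : ℝ) / S.M i)) * S.M i := mul_le_mul_of_nonneg_right h6.le h7.le
  have h13 : (Lq q ^ 2 * (2 * (((S.X i).card : ℝ) / S.M i) - 1 - Lq q / S.M i) -
      q * (((S.X i).card : ℝ) / S.M i) - (m * (m + 1) + (p + 1 / 2) * m) -
      m * (((S.X i).card : ℝ) / S.M i)) * S.M i =
      Lq q ^ 2 * (2 * (S.X i).card - S.M i - Lq q) - q * (S.X i).card -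
        (m * (m + 1) + (p + 1 / 2) * m) * S.M i - m * (S.X i).card := by
    field_simp
  rw [h13] at h12
  have h14 : (q : ℝ) * ((2 * Lq q - (p + 5) * q) * S.M i) ≤ q * SW (S.X i) (S.y i) (Lq q) := by
    linarith
  exact le_of_mul_le_mul_left h14 (by linarith)

/-- the comparison function -/
noncomputable def cmp (S : Sy l) (p q : ℕ) (i : ι) : ℝ :=
  DF (S.X i) (S.y i) p (Lq q) / S.M i / (2 * Lq q) ^ p + (p - 1) * (((S.X i).card : ℝ) / S.M i) -
    p * ((2 * Lq q - (p + 5) * q - p * (((S.X i).card : ℝ) / S.M i)) / (2 * Lq q))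

/-- the deviation of the windows -/
theorem dev (hc : Continuous fun p : ℝ × ℝ => K p.1 p.2) (hK : PSDk K) (hd : ∀ x, K x x = 1)
    {r : ℕ} (hr : 1 ≤ r) (H : S.Lev K (r + 1)) {q : ℕ} (hq : 1 ≤ q) :
    ∀ᶠ i in l, ∑ n ∈ S.X i, |xw (S.X i) (S.y i) (r + 1) (Lq q) n - 1| ^ (r + 1) ≤
      S.cmp (r + 1) q i * S.M i := by
  filter_upwards [sw_ge hc hK hd H hq, S.Mpos] with i h1 h2
  have h3 := dev_le (X := S.X i) (y := S.y i) (p := r + 1) (by omega) (Lq_pos hq)
  refine h3.trans ?_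
  have hL := Lq_pos hq
  have e : S.cmp (r + 1) q i * S.M i = DF (S.X i) (S.y i) (r + 1) (Lq q) / (2 * Lq q) ^ (r + 1) +
      ((r + 1 : ℕ) - 1) * (S.X i).card - (r + 1 : ℕ) *
        (((2 * Lq q - ((r + 1 : ℕ) + 5) * q) * S.M i - (r + 1 : ℕ) * (S.X i).card) / (2 * Lq q)) := by
    unfold cmp
    field_simp
  rw [e]
  have h4 : ((2 * Lq q - ((r + 1 : ℕ) + 5) * q) * S.M i - (r + 1 : ℕ) * (S.X i).card) / (2 * Lq q) ≤
      (SW (S.X i) (S.y i) (Lq q) - (r + 1 : ℕ) * (S.X i).card) / (2 * Lq q) :=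
    div_le_div_of_nonneg_right (by linarith) (by positivity)
  have h5 := mul_le_mul_of_nonneg_left h4 (Nat.cast_nonneg (r + 1) : (0 : ℝ) ≤ _)
  linarith

theorem cmp_lim {p : ℕ} (H : S.Lev K p) (c : ℝ) {q : ℕ} (hq : 1 ≤ q) :
    Tendsto (S.cmp p q) l (𝓝 ((∫ u in Icc (fun _ : Fin p => -Lq q) (fun _ => Lq q), Fd K p c u) /
      (2 * Lq q) ^ p + (p - 1) * 1 - p * ((2 * Lq q - (p + 5) * q - p * 1) / (2 * Lq q)))) :=
  (((df_lim H c (Lq_pos hq)).div_const _).add (S.card.const_mul _)).sub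
    (((tendsto_const_nhds.sub (S.card.const_mul _)).div_const _).const_mul _)

/-- the value of the limit -/
theorem val_le (hc : Continuous fun p : ℝ × ℝ => K p.1 p.2) (hK : PSDk K) (hd : ∀ x, K x x = 1)
    (r : ℕ) (c : ℝ) {q : ℕ} (hq : 1 ≤ q) :
    (∫ u in Icc (fun _ : Fin (r + 1) => -Lq q) (fun _ => Lq q), Fd K (r + 1) c u) /
      (2 * Lq q) ^ (r + 1) + ((r + 1 : ℕ) - 1) * 1 -
        (r + 1 : ℕ) * ((2 * Lq q - ((r + 1 : ℕ) + 5) * q - (r + 1 : ℕ) * 1) / (2 * Lq q)) +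
          AA K c (Lq q) / 2 / (2 * Lq q) ≤
      (r + 1 : ℕ) * (2 * (r + 1 : ℕ) + 5) / (2 * q) := by
  have hL := Lq_pos hq
  have h1 := int_upper hc hK hd r c hL.le
  set J := ∫ u in Icc (fun _ : Fin (r + 1) => -Lq q) (fun _ => Lq q), Fd K (r + 1) c u
  set p : ℝ := ((r + 1 : ℕ) : ℝ) with hp
  have hp1 : 1 ≤ p := by
    rw [hp]
    push_cast
    have : (0 : ℝ) ≤ r := Nat.cast_nonneg r
    linarith
  have hq1 : (1 : ℝ) ≤ q := by exact_mod_cast hq
  have h2 : J / (2 * Lq q) ^ (r + 1) + AA K c (Lq q) / 2 / (2 * Lq q) ≤ 1 := by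
    have e : AA K c (Lq q) / 2 / (2 * Lq q) = (2 * Lq q) ^ r * AA K c (Lq q) / 2 / (2 * Lq q) ^ (r + 1) := by
      rw [pow_succ]
      field_simp
    rw [e, ← add_div, div_le_one (by positivity)]
    linarith
  have h3 : p * ((2 * Lq q - (p + 5) * q - p * 1) / (2 * Lq q)) = p - p * ((p + 5) * q + p) / (2 * Lq q) := by
    field_simp
    ring
  have h4 : p * ((p + 5) * q + p) / (2 * Lq q) ≤ p * (2 * p + 5) / (2 * q) := by
    rw [div_le_div_iff₀ (by positivity) (by positivity)]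
    have h5 := Lq_ge (q := q)
    have h6 : (p + 5) * q + p ≤ (2 * p + 5) * q := by nlinarith
    have h7 : p * ((p + 5) * q + p) * (2 * q) ≤ p * ((2 * p + 5) * q) * (2 * q) := by
      apply mul_le_mul_of_nonneg_right _ (by positivity)
      exact mul_le_mul_of_nonneg_left h6 (by positivity)
    have h8 : p * (2 * p + 5) * (2 * (q : ℝ) ^ 2) ≤ p * (2 * p + 5) * (2 * Lq q) :=
      mul_le_mul_of_nonneg_left (by linarith) (by positivity)
    nlinarith
  rw [h3]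
  linarith

/-- the off diagonal entries are small in the mean -/
theorem AA_le [l.NeBot] (hc : Continuous fun p : ℝ × ℝ => K p.1 p.2) (hK : PSDk K)
    (hd : ∀ x, K x x = 1) {r : ℕ} (hr : 1 ≤ r) (H : S.Lev K (r + 1)) (c : ℝ) {q : ℕ} (hq : 1 ≤ q) :
    AA K c (Lq q) ≤ 2 * (r + 1 : ℕ) * (2 * (r + 1 : ℕ) + 5) * Lq q / q := by
  have h1 := cmp_lim H c hq
  have h2 := val_le hc hK hd r c hq
  have hL := Lq_pos hq
  have hq1 : (1 : ℝ) ≤ q := by exact_mod_cast hq
  have h3 := ge_of_tendsto h1 (b := 0) (by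
    filter_upwards [dev hc hK hd hr H hq, S.Mpos] with i h3 h4
    have h5 : 0 ≤ ∑ n ∈ S.X i, |xw (S.X i) (S.y i) (r + 1) (Lq q) n - 1| ^ (r + 1) :=
      Finset.sum_nonneg fun n _ => by positivity
    exact nonneg_of_mul_nonneg_left (h5.trans h3) h4)
  have h4 : AA K c (Lq q) / 2 / (2 * Lq q) ≤ (r + 1 : ℕ) * (2 * (r + 1 : ℕ) + 5) / (2 * q) := by
    linarith
  rw [div_div, div_le_div_iff₀ (by positivity) (by positivity)] at h4
  rw [le_div_iff₀ (by linarith)]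
  linarith

theorem dev2 (hc : Continuous fun p : ℝ × ℝ => K p.1 p.2) (hK : PSDk K) (hd : ∀ x, K x x = 1)
    {r : ℕ} (hr : 1 ≤ r) (H : S.Lev K (r + 1)) {q : ℕ} (hq : 1 ≤ q) :
    ∀ᶠ i in l, ∑ n ∈ S.X i, |xw (S.X i) (S.y i) (r + 1) (Lq q) n - 1| ^ (r + 1) ≤
      (r + 1 : ℕ) * (2 * (r + 1 : ℕ) + 5) / q * S.M i := by
  have h2 := val_le hc hK hd r 0 hq
  have h3 := AA_nonneg (K := K) 0 (Lq_pos hq).le
  have hL := Lq_pos hq
  have hq1 : (1 : ℝ) ≤ q := by exact_mod_cast hq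
  have h4 : 0 ≤ AA K 0 (Lq q) / 2 / (2 * Lq q) := by positivity
  have h5 : ((r + 1 : ℕ) : ℝ) * (2 * (r + 1 : ℕ) + 5) / (2 * q) <
      (r + 1 : ℕ) * (2 * (r + 1 : ℕ) + 5) / q := by
    have : (0 : ℝ) < ((r + 1 : ℕ) : ℝ) * (2 * (r + 1 : ℕ) + 5) := by positivity
    rw [div_lt_div_iff_of_pos_left this (by linarith) (by linarith)]
    linarith
  filter_upwards [dev hc hK hd hr H hq, (tendsto_order.mp (cmp_lim H 0 hq)).2 _
    (show _ < ((r + 1 : ℕ) : ℝ) * (2 * (r + 1 : ℕ) + 5) / q by linarith), S.Mpos] with i h6 h7 h8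
  exact h6.trans (mul_le_mul_of_nonneg_right h7.le h8.le)

/-- the powers of the windows -/
theorem pw (hc : Continuous fun p : ℝ × ℝ => K p.1 p.2) (hK : PSDk K) (hd : ∀ x, K x x = 1)
    {r : ℕ} (H : S.Lev K (r + 1)) {R : ℝ} (hR : 0 < R) :
    ∃ C : ℝ, 0 < C ∧ ∀ᶠ i in l, ∑ n ∈ S.X i, (Wn (S.X i) (S.y i) n R : ℝ) ^ (r + 1) ≤ C * S.M i := by
  set p := r + 1 with hp
  have h1 := df_lim H 0 hR
  have h2 := int_le hc hK hd r 0 hR
  set J := ∫ u in Icc (fun _ : Fin p => -R) (fun _ => R), Fd K p 0 u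
  have h3 : Tendsto (fun i => (2 : ℝ) ^ (p - 1) * (DF (S.X i) (S.y i) p R / S.M i +
      (p : ℝ) ^ p * (((S.X i).card : ℝ) / S.M i))) l (𝓝 (2 ^ (p - 1) * (J + (p : ℝ) ^ p * 1))) :=
    (h1.add (S.card.const_mul _)).const_mul _
  refine ⟨2 ^ (p - 1) * ((2 * R) ^ p + (p : ℝ) ^ p * 1) + 1, by positivity, ?_⟩
  have h4 : (2 : ℝ) ^ (p - 1) * (J + (p : ℝ) ^ p * 1) <
      2 ^ (p - 1) * ((2 * R) ^ p + (p : ℝ) ^ p * 1) + 1 := by
    have : (2 : ℝ) ^ (p - 1) * (J + (p : ℝ) ^ p * 1) ≤ 2 ^ (p - 1) * ((2 * R) ^ p + (p : ℝ) ^ p * 1) :=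
      mul_le_mul_of_nonneg_left (by linarith) (by positivity)
    linarith
  filter_upwards [(tendsto_order.mp h3).2 _ h4, S.Mpos] with i h5 h6
  have h7 := pow_sum_le (X := S.X i) (y := S.y i) p R
  refine h7.trans ?_
  refine le_trans (le_of_eq ?_) (mul_le_mul_of_nonneg_right h5.le h6.le)
  field_simp

theorem Lq_shift {q R : ℕ} (hq : 1 ≤ q) : Lq q + R ≤ Lq (q + R) ∧
    Lq (q + R) ≤ (1 + R) ^ 2 * Lq q := by
  have hq1 : (1 : ℝ) ≤ q := by exact_mod_cast hq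
  have hR : (0 : ℝ) ≤ R := Nat.cast_nonneg R
  unfold Lq
  push_cast
  constructor
  · nlinarith [mul_nonneg hR (show (0 : ℝ) ≤ q by linarith)]
  · nlinarith [mul_nonneg hR (show (0 : ℝ) ≤ q by linarith), mul_nonneg hR hR,
      mul_nonneg (mul_nonneg hR hR) (show (0 : ℝ) ≤ q by linarith),
      mul_nonneg (mul_nonneg hR (show (0 : ℝ) ≤ q by linarith)) (show (0 : ℝ) ≤ q by linarith),
      mul_nonneg (mul_nonneg hR hR) (mul_nonneg (show (0 : ℝ) ≤ q by linarith)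
        (show (0 : ℝ) ≤ (q : ℝ) by linarith)),
      mul_nonneg (mul_nonneg hR hR) (show (0 : ℝ) ≤ (q : ℝ) - 1 by linarith),
      mul_nonneg hR (show (0 : ℝ) ≤ (q : ℝ) - 1 by linarith)]

/-- **one level determines the level below it** -/
theorem down [l.NeBot] (hc : Continuous fun p : ℝ × ℝ => K p.1 p.2) (hK : PSDk K)
    (hd : ∀ x, K x x = 1) {r : ℕ} (hr : 1 ≤ r) (H : S.Lev K (r + 1)) : S.Lev K r := by
  intro c a b hab
  -- the box
  obtain ⟨R, hR1, ha, hb⟩ : ∃ R : ℕ, 1 ≤ R ∧ (∀ i, -(R : ℝ) ≤ a i) ∧ ∀ i, b i ≤ R := by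
    obtain ⟨R, hR⟩ := exists_nat_ge (∑ i, (|a i| + |b i|))
    refine ⟨R + 1, by omega, fun i => ?_, fun i => ?_⟩
    · have h1 : |a i| + |b i| ≤ ∑ i, (|a i| + |b i|) :=
        Finset.single_le_sum (f := fun i => |a i| + |b i|) (fun i _ => by positivity)
          (Finset.mem_univ i)
      have := neg_abs_le (a i)
      have := abs_nonneg (b i)
      push_cast
      linarith
    · have h1 : |a i| + |b i| ≤ ∑ i, (|a i| + |b i|) :=
        Finset.single_le_sum (f := fun i => |a i| + |b i|) (fun i _ => by positivity)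
          (Finset.mem_univ i)
      have := le_abs_self (b i)
      have := abs_nonneg (a i)
      push_cast
      linarith
  have hR0 : (0 : ℝ) < R := by
    have : (1 : ℝ) ≤ R := by exact_mod_cast hR1
    linarith
  obtain ⟨C, hC, hCw⟩ := pw hc hK hd H hR0
  set P : ℝ := ((r + 1 : ℕ) : ℝ) * (2 * (r + 1 : ℕ) + 5) with hP
  have hP0 : 0 < P := by positivity
  set I := ∫ u in Icc a b, Fd K r c u with hI
  set V : ℝ := ∏ i, (b i - a i) with hV
  have hV0 : 0 ≤ V := Finset.prod_nonneg fun i _ => by linarith [hab i]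
  rw [Metric.tendsto_nhds]
  intro ε hε
  -- choice of the parameters
  set δ : ℝ := ε / (8 * C) with hδ
  have hδ0 : 0 < δ := by positivity
  set D : ℝ := C + (δ⁻¹) ^ r * P + V * (Cd (r + 1) * ((r + 1) * (P * (1 + R) ^ 2))) with hD
  have hD0 : 0 < D := by
    have := Cd_nonneg (r + 1)
    positivity
  obtain ⟨q, hq⟩ := exists_nat_gt (8 * D / ε + R)
  have hDε : 0 < 8 * D / ε := by positivity
  have hq1 : 1 ≤ q := by
    by_contra h
    have h0 : q = 0 := by omega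
    rw [h0] at hq
    push_cast at hq
    linarith
  have hqr : (1 : ℝ) ≤ q := by exact_mod_cast hq1
  have hq0 : (0 : ℝ) < q := by linarith
  have hq2 : D / q < ε / 8 := by
    have h1 : 8 * D / ε < q := by linarith
    rw [div_lt_iff₀ hε] at h1
    rw [div_lt_iff₀ hq0]
    linarith
  set L := Lq q with hL
  have hL0 : 0 < L := Lq_pos hq1
  have hLq : (q : ℝ) ≤ L := by
    have := Lq_ge (q := q)
    nlinarith
  have hRL : (R : ℝ) ≤ L := by linarith
  -- the integrals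
  set J := ∫ u in Icc (Fin.cons (-L) a : Fin (r + 1) → ℝ) (Fin.cons L b : Fin (r + 1) → ℝ),
    Fd K (r + 1) c u with hJ
  have hB : ∀ y, |y - c| ≤ R → AA K y (L + R) ≤ 2 * P * (1 + R) ^ 2 * L / q := by
    intro y _
    obtain ⟨h1, h2⟩ := Lq_shift (q := q) (R := R) hq1
    have h3 := AA_mono hc y (L := L + R) (by positivity) h1
    have h4 := AA_le hc hK hd hr H y (q := q + R) (by omega)
    refine (h3.trans h4).trans ?_
    have e : 2 * ((r + 1 : ℕ) : ℝ) * (2 * (r + 1 : ℕ) + 5) = 2 * P := by rw [hP]; ring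
    rw [e]
    have h5 : 2 * P * Lq (q + R) ≤ 2 * P * (1 + R) ^ 2 * L := by
      have := mul_le_mul_of_nonneg_left h2 (show 0 ≤ 2 * P by positivity)
      linarith
    apply div_le_div₀ (by positivity) h5 hq0
    push_cast
    linarith
  have i1 := int_close hc hK hd r c hL0.le hR0.le (fun i => (hab i).le) ha hb hB
  rw [← hJ, ← hI, ← hV] at i1
  have i2 : |J / (2 * L) - I| < ε / 8 := by
    have e1 : J / (2 * L) - I = (J - 2 * L * I) / (2 * L) := by field_simp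
    rw [e1, abs_div, abs_of_pos (show (0 : ℝ) < 2 * L by positivity)]
    refine lt_of_le_of_lt ?_ hq2
    rw [div_le_div_iff₀ (by positivity) hq0]
    have e2 : V * (Cd (r + 1) * ((r + 1) * (2 * P * (1 + R) ^ 2 * L / q))) * q =
        V * (Cd (r + 1) * ((r + 1) * (P * (1 + R) ^ 2))) * (2 * L) := by
      field_simp
    have h1 := mul_le_mul_of_nonneg_right i1 hq0.le
    rw [e2] at h1
    refine h1.trans ?_
    apply mul_le_mul_of_nonneg_right _ (by positivity)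
    rw [hD]
    have : 0 ≤ (δ⁻¹) ^ r * P := by positivity
    linarith
  -- the counts
  have hlt : ∀ i : Fin (r + 1), (Fin.cons (-L) a : Fin (r + 1) → ℝ) i <
      (Fin.cons L b : Fin (r + 1) → ℝ) i := by
    intro i
    refine Fin.cases ?_ (fun i => ?_) i
    · simp only [Fin.cons_zero]
      linarith
    · simp only [Fin.cons_succ]
      exact hab i
  have n1 := Metric.tendsto_nhds.mp (H c _ _ hlt) (2 * L * (ε / 8)) (by positivity)
  filter_upwards [n1, hCw, dev2 hc hK hd hr H hq1, S.Mpos] with i h1 h2 h3 h4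
  rw [Real.dist_eq] at h1 ⊢
  rw [← hJ] at h1
  have h5 := level_le (X := S.X i) (y := S.y i) hr hL0 hRL ha hb hδ0
  set N₁ : ℝ := (NT (S.X i) (S.y i) (r + 1) (Fin.cons (-L) a : Fin (r + 1) → ℝ)
    (Fin.cons L b : Fin (r + 1) → ℝ) : ℝ)
  set N₀ : ℝ := (NT (S.X i) (S.y i) r a b : ℝ)
  have h6 : |N₁ / (2 * L) - N₀| ≤ ε / 4 * S.M i := by
    refine h5.trans ?_
    have h7 : (δ + 1 / (2 * L)) * ∑ n ∈ S.X i, (Wn (S.X i) (S.y i) n R : ℝ) ^ (r + 1) ≤
        (δ + 1 / (2 * L)) * (C * S.M i) := mul_le_mul_of_nonneg_left h2 (by positivity)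
    have h8 : (δ⁻¹) ^ r * ∑ n ∈ S.X i, |xw (S.X i) (S.y i) (r + 1) L n - 1| ^ (r + 1) ≤
        (δ⁻¹) ^ r * (P / q * S.M i) := mul_le_mul_of_nonneg_left h3 (by positivity)
    refine (add_le_add h7 h8).trans ?_
    have h9 : δ * C = ε / 8 := by
      rw [hδ]
      field_simp
    have h10 : 1 / (2 * L) * C ≤ C / q := by
      rw [one_div_mul_eq_div]
      apply div_le_div_of_nonneg_left hC.le hq0
      linarith
    have h11 : C / q + (δ⁻¹) ^ r * (P / q) ≤ D / q := by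
      rw [hD, ← mul_div_assoc, ← add_div]
      apply div_le_div_of_nonneg_right _ hq0.le
      have := Cd_nonneg (r + 1)
      have : 0 ≤ V * (Cd (r + 1) * ((r + 1) * (P * (1 + R) ^ 2))) := by positivity
      linarith
    have h12 : (δ + 1 / (2 * L)) * C + (δ⁻¹) ^ r * (P / q) ≤ ε / 4 := by linarith
    have h13 := mul_le_mul_of_nonneg_right h12 h4.le
    linarith
  have h14 : |N₁ / (2 * L) / S.M i - N₀ / S.M i| ≤ ε / 4 := by
    rw [← sub_div, abs_div, abs_of_pos h4, div_le_iff₀ h4]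
    exact h6
  have h15 : |N₁ / (2 * L) / S.M i - J / (2 * L)| < ε / 8 := by
    have e1 : N₁ / (2 * L) / S.M i - J / (2 * L) = (N₁ / S.M i - J) / (2 * L) := by
      field_simp
    rw [e1, abs_div, abs_of_pos (show (0 : ℝ) < 2 * L by positivity), div_lt_iff₀ (by positivity)]
    linarith
  have h16 : |N₀ / S.M i - I| ≤ |N₁ / (2 * L) / S.M i - N₀ / S.M i| +
      |N₁ / (2 * L) / S.M i - J / (2 * L)| + |J / (2 * L) - I| := by
    have e1 : N₀ / S.M i - I = -(N₁ / (2 * L) / S.M i - N₀ / S.M i) +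
      (N₁ / (2 * L) / S.M i - J / (2 * L)) + (J / (2 * L) - I) := by ring
    rw [e1]
    refine (abs_add_le _ _).trans (add_le_add ((abs_add_le _ _).trans ?_) le_rfl)
    rw [abs_neg]
  linarith

/-- **one level determines all lower levels** -/
theorem down_all [l.NeBot] (hc : Continuous fun p : ℝ × ℝ => K p.1 p.2) (hK : PSDk K)
    (hd : ∀ x, K x x = 1) {r j : ℕ} (hj : 1 ≤ j) (hjr : j ≤ r) (H : S.Lev K r) : S.Lev K j := by
  induction r, hjr using Nat.le_induction with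
  | base => exact H
  | succ r hr ih => exact ih (down hc hK hd (by omega) H)

end Sy

end Pool.Agent.H34.SL
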