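import Pool.Agent.H34.SL.Comb

/-!
# The mean number of points in long windows
-/

open Finset MeasureTheory

namespace Pool.Agent.H34.SL

variable {X : Finset ℕ} {y : ℕ → ℝ}

/-- the tent -/
noncomputable def tent (Λ x : ℝ) : ℝ := max (Λ - |x|) 0

theorem tent_diff {Λ h x : ℝ} (_ : 0 ≤ h) :
    tent (Λ + h) x - tent Λ x ≤ h * (if |x| ≤ Λ + h then 1 else 0) := by
  unfold tent
  split_ifs with h1
  · rw [max_eq_left (by linarith)]
    have := le_max_left (Λ - |x|) 0
    linarith
  · push Not at h1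
    rw [max_eq_right (by linarith)]
    have := le_max_right (Λ - |x|) 0
    linarith

theorem tent_nat (m : ℕ) (x : ℝ) :
    tent m x ≤ ∑ i ∈ Finset.range m, if |x| ≤ (i + 1 : ℝ) then (1 : ℝ) else 0 := by
  induction m with
  | zero =>
    unfold tent
    simp
  | succ m ih =>
    rw [Finset.sum_range_succ]
    have h1 := tent_diff (Λ := m) (h := 1) (x := x) zero_le_one
    push_cast
    linarith

theorem sum_ind {n : ℕ} (hn : n ∈ X) {s : ℝ} (hs : 0 ≤ s) :
    (∑ j ∈ X, if |y n - y j| ≤ s then (1 : ℝ) else 0) = Wn X y n s + 1 := by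
  rw [← Finset.insert_erase hn, Finset.sum_insert (Finset.notMem_erase n X), Finset.insert_erase hn]
  rw [if_pos (by simpa using hs), add_comm]
  congr 1
  rw [Finset.sum_boole]
  unfold Wn Wi
  congr 3
  ext j
  rw [abs_sub_comm]

/-- the second moment of the windows -/
theorem tent_sum {M Λ : ℝ} (hM : 0 ≤ M) (hΛ : 0 ≤ Λ) (hy : ∀ n ∈ X, 0 ≤ y n ∧ y n ≤ M) :
    Λ ^ 2 * (2 * X.card - M - Λ) ≤ ∑ n ∈ X, ∑ j ∈ X, tent Λ (y n - y j) := by
  set I : ℕ → Set ℝ := fun n => Set.Ico (y n - Λ) (y n) with hI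
  set f : ℝ → ℝ := fun t => ∑ n ∈ X, (I n).indicator (fun _ => (1 : ℝ)) t with hf
  have iIco : ∀ a b : ℝ, Integrable ((Set.Ico a b).indicator (fun _ => (1 : ℝ))) := fun a b =>
    (integrable_indicator_iff measurableSet_Ico).mpr (integrableOn_const (by simp) (by simp))
  have vIco : ∀ a b : ℝ, ∫ t, (Set.Ico a b).indicator (fun _ => (1 : ℝ)) t = max (b - a) 0 := by
    intro a b
    rw [integral_indicator measurableSet_Ico, setIntegral_const, smul_eq_mul, mul_one,
      Real.volume_real_Ico]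
  have e : ∀ n j t, (I n).indicator (fun _ => (1 : ℝ)) t * (I j).indicator (fun _ => (1 : ℝ)) t =
      (Set.Ico (max (y n - Λ) (y j - Λ)) (min (y n) (y j))).indicator (fun _ => (1 : ℝ)) t := by
    intro n j t
    rw [← Set.Ico_inter_Ico]
    show _ = (I n ∩ I j).indicator (fun _ => (1 : ℝ)) t
    by_cases h1 : t ∈ I n
    · by_cases h2 : t ∈ I j
      · rw [Set.indicator_of_mem h1, Set.indicator_of_mem h2,
          Set.indicator_of_mem (show t ∈ I n ∩ I j from ⟨h1, h2⟩), mul_one]
      · rw [Set.indicator_of_notMem h2, Set.indicator_of_notMem (s := I n ∩ I j) (fun h => h2 h.2),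
          mul_zero]
    · rw [Set.indicator_of_notMem h1, Set.indicator_of_notMem (s := I n ∩ I j) (fun h => h1 h.1),
        zero_mul]
  have e2 : ∀ t, f t ^ 2 = ∑ n ∈ X, ∑ j ∈ X,
      (Set.Ico (max (y n - Λ) (y j - Λ)) (min (y n) (y j))).indicator (fun _ => (1 : ℝ)) t := by
    intro t
    rw [sq, hf]
    simp only
    rw [Finset.sum_mul_sum]
    exact Finset.sum_congr rfl fun n _ => Finset.sum_congr rfl fun j _ => e n j t
  have i1 : Integrable f := by
    rw [hf]
    exact integrable_finsetSum _ (fun n _ => iIco _ _)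
  have i2 : Integrable (fun t => f t ^ 2) := by
    simp_rw [e2]
    exact integrable_finsetSum _ (fun n _ => integrable_finsetSum _ (fun j _ => iIco _ _))
  have h1 : ∫ t, f t = X.card * Λ := by
    simp only [hf]
    rw [integral_finsetSum _ (fun n _ => iIco _ _)]
    have : ∀ n ∈ X, ∫ t, (I n).indicator (fun _ => (1 : ℝ)) t = Λ := by
      intro n _
      rw [vIco, max_eq_left (by linarith)]
      ring
    rw [Finset.sum_congr rfl this, Finset.sum_const, nsmul_eq_mul]
  have h2 : ∫ t, f t ^ 2 = ∑ n ∈ X, ∑ j ∈ X, tent Λ (y n - y j) := by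
    simp_rw [e2]
    rw [integral_finsetSum _ (fun n _ => integrable_finsetSum _ (fun j _ => iIco _ _))]
    apply Finset.sum_congr rfl
    intro n _
    rw [integral_finsetSum _ (fun j _ => iIco _ _)]
    apply Finset.sum_congr rfl
    intro j _
    rw [vIco]
    unfold tent
    congr 1
    rcases le_total (y n) (y j) with h | h
    · rw [min_eq_left h, max_eq_right (by linarith), abs_of_nonpos (by linarith)]
      ring
    · rw [min_eq_right h, max_eq_left (by linarith), abs_of_nonneg (by linarith)]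
      ring
  have h3 : 0 ≤ ∫ t, (f t ^ 2 - 2 * Λ * f t +
      Λ ^ 2 * (Set.Ico (-Λ) M).indicator (fun _ => (1 : ℝ)) t) := by
    apply integral_nonneg
    intro t
    simp only [Pi.zero_apply]
    by_cases ht : t ∈ Set.Ico (-Λ) M
    · rw [Set.indicator_of_mem ht]
      nlinarith [sq_nonneg (f t - Λ)]
    · rw [Set.indicator_of_notMem ht]
      have : f t = 0 := by
        apply Finset.sum_eq_zero
        intro n hn
        apply Set.indicator_of_notMem
        intro h
        apply ht
        have := hy n hn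
        exact ⟨by linarith [h.1], lt_of_lt_of_le h.2 this.2⟩
      rw [this]
      norm_num
  have h4 : ∫ t, (f t ^ 2 - 2 * Λ * f t + Λ ^ 2 * (Set.Ico (-Λ) M).indicator (fun _ => (1 : ℝ)) t) =
      (∫ t, f t ^ 2) - 2 * Λ * (X.card * Λ) + Λ ^ 2 * (M + Λ) := by
    have i3 : Integrable (fun t => f t ^ 2 - 2 * Λ * f t) := i2.sub (i1.const_mul _)
    rw [integral_add i3 ((iIco _ _).const_mul _),
      integral_sub i2 (i1.const_mul _), integral_const_mul, integral_const_mul, h1, vIco,
      max_eq_left (by linarith)]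
    ring
  rw [h4, h2] at h3
  linarith

/-- the mean number of points in windows: comparison of the scales -/
theorem compare {M : ℝ} (hM : 0 ≤ M) (hy : ∀ n ∈ X, 0 ≤ y n ∧ y n ≤ M) {m : ℕ} {h : ℝ} (hh : 0 ≤ h) :
    ((m : ℝ) + h) ^ 2 * (2 * X.card - M - (m + h)) ≤
      h * ∑ n ∈ X, ((Wn X y n (m + h) : ℝ) + 1) +
        ∑ i ∈ Finset.range m, ∑ n ∈ X, ((Wn X y n (i + 1) : ℝ) + 1) := by
  have h1 := tent_sum (X := X) (y := y) hM (Λ := m + h) (by positivity) hy
  refine h1.trans ?_
  have h2 : ∀ n ∈ X, ∑ j ∈ X, tent (m + h) (y n - y j) ≤ h * ((Wn X y n (m + h) : ℝ) + 1) +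
      ∑ i ∈ Finset.range m, ((Wn X y n (i + 1) : ℝ) + 1) := by
    intro n hn
    have h3 : ∀ j ∈ X, tent (m + h) (y n - y j) ≤
        h * (if |y n - y j| ≤ m + h then (1 : ℝ) else 0) +
          ∑ i ∈ Finset.range m, if |y n - y j| ≤ (i + 1 : ℝ) then (1 : ℝ) else 0 := by
      intro j _
      have h4 := tent_diff (Λ := m) (h := h) (x := y n - y j) hh
      have h5 := tent_nat m (y n - y j)
      linarith
    refine (Finset.sum_le_sum h3).trans ?_
    rw [Finset.sum_add_distrib, ← Finset.mul_sum, sum_ind hn (by positivity), Finset.sum_comm]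
    apply le_of_eq
    congr 1
    apply Finset.sum_congr rfl
    intro i _
    rw [sum_ind hn (by positivity)]
  refine (Finset.sum_le_sum h2).trans ?_
  rw [Finset.sum_add_distrib, ← Finset.mul_sum, Finset.sum_comm (s := X)]

end Pool.Agent.H34.SL
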